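import Pool.Agent.H93.SM.Iface
import Pool.Agent.H74.Tri.Comp
import Pool.Agent.H63.UC.MD1

set_option autoImplicit false

/-!
# CR: the crossing probability is a martingale of the exploration
-/

namespace Pool.Agent.H21.SM

open Pool.Agent.H7.UC Pool.Agent.H74.Tri Pool.Agent.H75.Perc Pool.Agent.H93.SM Finset
open Pool.Agent.H63.UC (z2 z2_eq z2_or ind_of_mem ind_of_not_mem ind_eq_one ind_eq_zero)

/-! ## Probability -/

lemma Pr_add {α : Type*} [DecidableEq α] (E : Finset α) (A B : Finset α → Prop) :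
    Pr E A = Pr E (fun ω => A ω ∧ B ω) + Pr E (fun ω => A ω ∧ ¬ B ω) := by
  classical
  rw [Pr_eq, Pr_eq, Pr_eq, ← add_div]
  congr 1
  norm_cast
  rw [← card_union_of_disjoint]
  · congr 1
    ext ω
    simp only [mem_filter, mem_union]
    tauto
  · rw [disjoint_left]
    intro ω h1 h2
    exact (mem_filter.1 h2).2.2 (mem_filter.1 h1).2.2

lemma Pr_single {α : Type*} [DecidableEq α] (h : α) :
    Pr {h} (fun ω => h ∈ ω) = 1 / 2 ∧ Pr {h} (fun ω => h ∉ ω) = 1 / 2 := by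
  classical
  have e : ({h} : Finset α).powerset = {∅, {h}} := by
    ext s
    simp
  constructor
  · rw [Pr_eq, e]
    have : ({∅, {h}} : Finset (Finset α)).filter (fun ω => h ∈ ω) = {{h}} := by
      ext s
      simp only [mem_filter, mem_insert, mem_singleton]
      constructor
      · rintro ⟨h1 | h1, h2⟩
        · rw [h1] at h2; simp at h2
        · exact h1
      · intro h1; rw [h1]; simp
    rw [this]
    simp
  · rw [Pr_eq, e]
    have : ({∅, {h}} : Finset (Finset α)).filter (fun ω => h ∉ ω) = {∅} := by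
      ext s
      simp only [mem_filter, mem_insert, mem_singleton]
      constructor
      · rintro ⟨h1 | h1, h2⟩
        · exact h1
        · rw [h1] at h2; simp at h2
      · intro h1; rw [h1]; simp
    rw [this]
    simp

lemma Pr_half {α : Type*} [DecidableEq α] {U U' : Finset α} {h : α} (hU : h ∈ U) (hU' : U' ⊆ U)
    (hh : h ∉ U') (A E1 E0 : Finset α → Prop)
    (h1 : ∀ ω, ω ⊆ U → h ∈ ω → (A ω ↔ E1 (ω ∩ U')))
    (h0 : ∀ ω, ω ⊆ U → h ∉ ω → (A ω ↔ E0 (ω ∩ U'))) :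
    Pr U A = (Pr U' E1 + Pr U' E0) / 2 := by
  have hs : {h} ⊆ U := singleton_subset_iff.2 hU
  have hd : Disjoint {h} U' := disjoint_singleton_left.2 hh
  have hm : ∀ ω : Finset α, h ∈ ω ∩ {h} ↔ h ∈ ω := fun ω => by simp
  have a1 : Pr U (fun ω => A ω ∧ h ∈ ω) = 1 / 2 * Pr U' E1 := by
    rw [← (Pr_single h).1, ← Pr_indep hs hU' hd (fun ω => h ∈ ω) E1]
    apply Pr_congr
    intro ω hω
    rw [hm]
    constructor
    · rintro ⟨h2, h3⟩; exact ⟨h3, (h1 ω hω h3).1 h2⟩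
    · rintro ⟨h3, h2⟩; exact ⟨(h1 ω hω h3).2 h2, h3⟩
  have a0 : Pr U (fun ω => A ω ∧ ¬ h ∈ ω) = 1 / 2 * Pr U' E0 := by
    rw [← (Pr_single h).2, ← Pr_indep hs hU' hd (fun ω => h ∉ ω) E0]
    apply Pr_congr
    intro ω hω
    rw [hm]
    constructor
    · rintro ⟨h2, h3⟩; exact ⟨h3, (h0 ω hω h3).1 h2⟩
    · rintro ⟨h3, h2⟩; exact ⟨(h0 ω hω h3).2 h2, h3⟩
  rw [Pr_add U A (fun ω => h ∈ ω), a1, a0]
  ring

/-! ## Edges -/

/-- the face of `U` at a boundary edge of `U` and `U'` -/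
lemma face_mem {U U' : Finset Fc} (hs : U' ⊆ U) {e : Ed} (h1 : isB U e) (h2 : isB U' e) {f : Fc}
    (hf : f ∈ U) (ht : lf e = f ∨ rf e = f) : f ∈ U' := by
  unfold isB at h1 h2
  rcases ht with ht | ht
  · rw [ht] at h1 h2
    have h3 : rf e ∉ U := by tauto
    have h4 : rf e ∉ U' := fun h => h3 (hs h)
    tauto
  · rw [ht] at h1 h2
    have h3 : lf e ∉ U := by tauto
    have h4 : lf e ∉ U' := fun h => h3 (hs h)
    tauto

lemma isB_sub {U U' : Finset Fc} (hs : U' ⊆ U) {e : Ed} (h1 : isB U e) {f : Fc}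
    (hf : f ∈ U') (ht : lf e = f ∨ rf e = f) : isB U' e := by
  unfold isB at h1 ⊢
  have hfU := hs hf
  rcases ht with ht | ht
  · rw [ht] at h1 ⊢
    have h3 : rf e ∉ U := by tauto
    have h4 : rf e ∉ U' := fun h => h3 (hs h)
    tauto
  · rw [ht] at h1 ⊢
    have h3 : lf e ∉ U := by tauto
    have h4 : lf e ∉ U' := fun h => h3 (hs h)
    tauto

/-- an edge of the arc at a mark -/
lemma exists_edge {U : Finset Fc} {n : ℕ} [NeZero n] (M : Marks U n) (j : Fin n)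
    (hj : M.u j ≠ M.u (j + 1)) : ∃ k, ed (M.u (j + 1)) k ∈ M.C j := by
  by_contra hc
  push Not at hc
  have h := M.dvC j (M.u (j + 1))
  rw [ind_of_not_mem (by rw [Set.mem_singleton_iff]; exact fun h => hj h.symm),
    ind_of_mem (Set.mem_singleton _)] at h
  unfold dv at h
  rw [ind_of_not_mem (by exact_mod_cast hc 0), ind_of_not_mem (by exact_mod_cast hc 1),
    ind_of_not_mem (by exact_mod_cast hc 2)] at h
  revert h
  decide

/-- an arc whose two marks do not change keeps its edges -/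
lemma arc_eq' {U U' : Finset Fc} (hU : IsDom U) {n : ℕ} [NeZero n] (M : Marks U n)
    (M' : Marks U' n) (i i0 : Fin n) (hi0 : i0 ≠ i)
    (h1 : M'.u i = M.u i) (h2 : M'.u (i + 1) = M.u (i + 1))
    (hC : ∀ e, e ∈ M'.C i → e ∈ M.C i) : M'.C i = M.C i := by
  have hd := Pool.Agent.H63.UC.d1b U hU
    (fun e => ind (↑(M.C i) : Set Ed) e + ind (↑(M'.C i) : Set Ed) e) ?_ ?_
  · rcases hd with hd | hd
    · ext e
      have := z2_eq (hd e)
      constructor
      · exact hC e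
      · intro he
        rw [ind_of_mem (by exact_mod_cast he)] at this
        exact_mod_cast ind_eq_one.1 this.symm
    · exfalso
      obtain ⟨k, -, -, -, h5⟩ := M.out i0
      have h6 := hd _ ((M.mem _).2 ⟨i0, h5⟩)
      have h7 : ed (M.u i0) (k + 1) ∉ M.C i := fun h => disjoint_left.1 (M.disj i0 i hi0) h5 h
      have h8 : ed (M.u i0) (k + 1) ∉ M'.C i := fun h => h7 (hC _ h)
      rw [ind_of_not_mem (by exact_mod_cast h7), ind_of_not_mem (by exact_mod_cast h8)] at h6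
      revert h6
      decide
  · intro e he
    by_contra hb
    have h7 : e ∉ M.C i := fun h => hb ((M.mem e).2 ⟨i, h⟩)
    have h8 : e ∉ M'.C i := fun h => h7 (hC _ h)
    apply he
    rw [ind_of_not_mem (by exact_mod_cast h7), ind_of_not_mem (by exact_mod_cast h8), add_zero]
  · intro v
    have e1 : dv (fun e => ind (↑(M.C i) : Set Ed) e + ind (↑(M'.C i) : Set Ed) e) v =
        dv (ind (↑(M.C i) : Set Ed)) v + dv (ind (↑(M'.C i) : Set Ed)) v := by
      unfold dv; ring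
    rw [e1, M.dvC, M'.dvC, h1, h2]
    exact z2 _

/-! ## Paths -/

lemma path_cut {U U' : Finset Fc} {h : Fc}
    (hcp : ∀ f g, f ∈ U' → g ∈ U → g ≠ h → adjF f g → g ∈ U') {ω : Finset Fc} {f g : Fc}
    (hg : g ∈ U')
    (hp : Relation.ReflTransGen (fun a b => b ∈ ω ∧ b ∈ U ∧ adjF a b) f g) :
    f ∈ U → f ∈ ω →
    (f ∈ U' ∧ Relation.ReflTransGen (fun a b => b ∈ ω ∩ U' ∧ b ∈ U' ∧ adjF a b) f g) ∨
    (h ∈ ω ∧ ∃ n, n ∈ ω ∧ n ∈ U' ∧ adjF h n ∧ Relation.ReflTransGen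
      (fun a b => b ∈ ω ∩ U' ∧ b ∈ U' ∧ adjF a b) n g) := by
  induction hp using Relation.ReflTransGen.head_induction_on with
  | refl => intro _ _; exact Or.inl ⟨hg, Relation.ReflTransGen.refl⟩
  | @head a b hab _ ih =>
    intro haU haω
    rcases ih hab.2.1 hab.1 with ⟨h1, h2⟩ | h1
    · by_cases hah : a = h
      · subst hah
        exact Or.inr ⟨haω, b, hab.1, h1, hab.2.2, h2⟩
      · left
        exact ⟨hcp b a h1 haU hah (adjF_symm hab.2.2),
          Relation.ReflTransGen.head ⟨mem_inter.2 ⟨hab.1, h1⟩, h1, hab.2.2⟩ h2⟩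
    · exact Or.inr h1

lemma path_up {U U' : Finset Fc} (hs : U' ⊆ U) {ω : Finset Fc} {f g : Fc}
    (hp : Relation.ReflTransGen (fun a b => b ∈ ω ∩ U' ∧ b ∈ U' ∧ adjF a b) f g) :
    Relation.ReflTransGen (fun a b => b ∈ ω ∧ b ∈ U ∧ adjF a b) f g :=
  Relation.ReflTransGen.mono (p := fun a b => b ∈ ω ∧ b ∈ U ∧ adjF a b)
    (fun _ _ h => ⟨(mem_inter.1 h.1).1, hs h.2.1, h.2.2⟩) _ _ hp

lemma path_end {U : Finset Fc} {ω : Finset Fc} {f g : Fc} (hf : f ∈ U)
    (hp : Relation.ReflTransGen (fun a b => b ∈ ω ∧ b ∈ U ∧ adjF a b) f g) : g ∈ U := by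
  rcases Relation.ReflTransGen.cases_tail hp with h | ⟨c, _, h⟩
  · exact h ▸ hf
  · exact h.2.1

lemma fin3 (l k : Fin 3) : l = k ∨ l = k + 1 ∨ l = k + 2 := by
  revert l k; decide

lemma cr_aux {U U' : Finset Fc} {h : Fc} {a : Vx} {ka : Fin 3} (hU : IsDom U)
    (ha : One U a ka) (hah : fc a ka = h) (M : Marks U 4) (hMa : M.u 1 = a) {s s' : Vx}
    (M1 M0 : Marks U' 4) (hS1 : IsStep h M 1 true s M1) (hS0 : IsStep h M 1 false s' M0)
    (hsub : U' ⊆ U) (hhU' : h ∉ U')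
    (hcp : ∀ f g, f ∈ U' → g ∈ U → g ≠ h → adjF f g → g ∈ U') :
    Pr U (Cross U (M.C 0) (M.C 2)) = (Pr U' (Cross U' (M1.C 0) (M1.C 2)) +
      Pr U' (Cross U' (M0.C 0) (M0.C 2))) / 2 := by
  have hhU : h ∈ U := hah ▸ ha.1
  -- the arcs
  have c1 : ∀ e, e ∈ M1.C 0 ↔ (e ∈ M.C 0 ∧ isB U' e) ∨ newE U' h e := by
    intro e
    rw [hS1.2 0 e]
    simp
  have c0 : ∀ e, e ∈ M0.C 0 ↔ e ∈ M.C 0 ∧ isB U' e := by
    intro e
    rw [hS0.2 0 e]
    simp
  have d1 : M1.C 2 = M.C 2 := by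
    apply arc_eq' hU M M1 2 0 (by decide)
    · rw [hS1.1]; rfl
    · rw [hS1.1]; rfl
    · intro e he
      rcases (hS1.2 2 e).1 he with h1 | h1
      · exact h1.1
      · exfalso
        revert h1
        have : ¬ ((2 : Fin 4) + 1 = 1) := by decide
        simp [this]
  have d0 : M0.C 2 = M.C 2 := by
    apply arc_eq' hU M M0 2 0 (by decide)
    · rw [hS0.1]; rfl
    · rw [hS0.1]; rfl
    · intro e he
      rcases (hS0.2 2 e).1 he with h1 | h1
      · exact h1.1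
      · exfalso
        revert h1
        have : ¬ ((2 : Fin 4) = 1) := by decide
        simp [this]
  -- faces of `U` touching `C 2` are in `U'`
  have t2 : ∀ g, g ∈ U → touch (M.C 2) g → g ∈ U' := by
    rintro g hg ⟨e, he, ht⟩
    have hB : isB U e := (M.mem e).2 ⟨2, he⟩
    have hB' : isB U' e := (M1.mem e).2 ⟨2, by rw [d1]; exact he⟩
    exact face_mem hsub hB hB' hg ht
  -- `h` touches `C 0`
  have t0 : touch (M.C 0) h := by
    obtain ⟨k, hk⟩ := exists_edge M 0 (fun h => by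
      have := M.inj h
      revert this
      decide)
    have hk' : ed a k ∈ M.C 0 := by
      rw [← hMa]; exact hk
    refine ⟨_, hk', ?_⟩
    have hB : isB U (ed a k) := (M.mem _).2 ⟨0, hk'⟩
    have hin : inE U (ed a k) := by
      unfold isB at hB; unfold inE; tauto
    have key : ∀ l, fc a l ∈ U → fc a l = h := by
      intro l hl
      obtain ⟨g1, g2, g3⟩ := ha
      rcases fin3 l ka with rfl | rfl | rfl
      · exact hah
      · exact absurd hl g2
      · exact absurd hl g3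
    rcases faces_ed a k with ⟨_, h1, h2⟩ | ⟨_, h1, h2⟩
    · rcases hin with h3 | h3
      · left; rw [h1] at h3 ⊢; exact key _ h3
      · right; rw [h2] at h3 ⊢; exact key _ h3
    · rcases hin with h3 | h3
      · left; rw [h1] at h3 ⊢; exact key _ h3
      · right; rw [h2] at h3 ⊢; exact key _ h3
  apply Pr_half hhU hsub hhU'
  · -- `h` is black
    intro ω _ hhω
    rw [d1]
    constructor
    · rintro ⟨f, g, hfω, hfU, hf0, hg2, hp⟩
      have hgU' : g ∈ U' := t2 g (path_end hfU hp) hg2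
      rcases path_cut hcp hgU' hp hfU hfω with ⟨h1, h2⟩ | ⟨_, n, h1, h2, h3, h4⟩
      · obtain ⟨e, he, ht⟩ := hf0
        have hB : isB U e := (M.mem e).2 ⟨0, he⟩
        exact ⟨f, g, mem_inter.2 ⟨hfω, h1⟩, h1,
          ⟨e, (c1 e).2 (Or.inl ⟨he, isB_sub hsub hB h1 ht⟩), ht⟩, hg2, h2⟩
      · obtain ⟨e, he⟩ := h3
        refine ⟨n, g, mem_inter.2 ⟨h1, h2⟩, h2, ⟨e, (c1 e).2 (Or.inr ?_), ?_⟩, hg2, h4⟩
        · rcases he with ⟨h5, h6⟩ | ⟨h5, h6⟩
          · exact Or.inl ⟨h5, by rw [h6]; exact h2⟩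
          · exact Or.inr ⟨by rw [h5]; exact h2, h6⟩
        · rcases he with ⟨h5, h6⟩ | ⟨h5, h6⟩
          · exact Or.inr h6
          · exact Or.inl h5
    · rintro ⟨f, g, hfω, hfU, ⟨e, he, ht⟩, hg2, hp⟩
      rcases (c1 e).1 he with h1 | h1
      · exact ⟨f, g, (mem_inter.1 hfω).1, hsub hfU, ⟨e, h1.1, ht⟩, hg2, path_up hsub hp⟩
      · refine ⟨h, g, hhω, hhU, t0, hg2, Relation.ReflTransGen.head
          ⟨(mem_inter.1 hfω).1, hsub hfU, e, ?_⟩ (path_up hsub hp)⟩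
        have hne : h ≠ f := fun h5 => hhU' (h5 ▸ hfU)
        rcases h1 with ⟨h5, h6⟩ | ⟨h5, h6⟩
        · rcases ht with ht | ht
          · exact absurd (h5.symm.trans ht) hne
          · exact Or.inl ⟨h5, ht⟩
        · rcases ht with ht | ht
          · exact Or.inr ⟨ht, h6⟩
          · exact absurd (h6.symm.trans ht) hne
  · -- `h` is white
    intro ω _ hhω
    rw [d0]
    constructor
    · rintro ⟨f, g, hfω, hfU, hf0, hg2, hp⟩
      have hgU' : g ∈ U' := t2 g (path_end hfU hp) hg2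
      rcases path_cut hcp hgU' hp hfU hfω with ⟨h1, h2⟩ | ⟨h1, _⟩
      · obtain ⟨e, he, ht⟩ := hf0
        have hB : isB U e := (M.mem e).2 ⟨0, he⟩
        exact ⟨f, g, mem_inter.2 ⟨hfω, h1⟩, h1,
          ⟨e, (c0 e).2 ⟨he, isB_sub hsub hB h1 ht⟩, ht⟩, hg2, h2⟩
      · exact absurd h1 hhω
    · rintro ⟨f, g, hfω, hfU, ⟨e, he, ht⟩, hg2, hp⟩
      exact ⟨f, g, (mem_inter.1 hfω).1, hsub hfU, ⟨e, ((c0 e).1 he).1, ht⟩, hg2, path_up hsub hp⟩

theorem cr : CR := by
  intro U z h a ka hU _ _ ha hah M hMa _ s s' M1 M0 hS1 hS0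
  refine cr_aux hU ha hah M hMa M1 M0 hS1 hS0
    (fun f hf => (mem_sdiff.1 (comp_sub _ _ hf)).1) ?_ ?_
  · intro hf
    have := (mem_sdiff.1 (comp_sub _ _ hf)).2
    simp at this
  · intro f g hf hg hgh hfg
    exact comp_adj hf (mem_sdiff.2 ⟨hg, by simpa using hgh⟩) hfg

end Pool.Agent.H21.SM
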