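import Pool.Agent.H21.SM.Os

set_option autoImplicit false

/-!
# CEN: from a state with a large sine the chain comes near `z` with positive probability
-/

namespace Pool.Agent.H21.SM

open Pool.Agent.H7.UC Pool.Agent.H74.Tri Pool.Agent.H75.Perc Pool.Agent.H93.SM Metric Set Filter
  Topology

theorem cen (hPS : PS) (hCH : CH) (hTL : TL) : CEN := by
  intro s0 hs0 l hl1
  have hl : 0 < l := by linarith
  set A := (2 * l) ^ ((1 / 4) : ℝ) with hA
  have hA0 : 0 < A := by positivity
  set g0 : ℝ := (1 / 8) ^ ((1 / 4) : ℝ) * s0 ^ ((1 / 3) : ℝ) with hg0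
  have hg0p : 0 < g0 := by positivity
  -- constants
  obtain ⟨κ, hκ, hκe⟩ : ∃ κ : ℝ, 0 < κ ∧ A * κ ^ ((1 / 3) : ℝ) ≤ g0 / 4 := by
    refine ⟨(g0 / (4 * A)) ^ (3 : ℝ), by positivity, ?_⟩
    rw [← Real.rpow_mul (by positivity)]
    norm_num
    rw [mul_div_assoc', div_le_iff₀ (by positivity)]
    apply le_of_eq
    ring
  obtain ⟨C, r0, hC, hr0, hP⟩ := hPS κ hκ
  obtain ⟨r, hr, hrr0, hr1, hrA, hrL⟩ := exists_r (A := A) (C := C) (L := Real.log (128 * l))
    (η := g0 / 8) (by positivity) hr0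
  obtain ⟨KP, hP⟩ := hP r hr hrr0
  refine ⟨g0 / (2 * A), by positivity, max (max 1 (4 * l)) (2 * l * KP), ?_⟩
  intro ρ hρK U col z hSt hz hd1 hd2 hsn
  have k1 : 1 ≤ ρ := ((le_max_left _ _).trans (le_max_left _ _)).trans hρK
  have k2 : 4 * l ≤ ρ := ((le_max_right _ _).trans (le_max_left _ _)).trans hρK
  have k4 : 2 * l * KP ≤ ρ := (le_max_right _ _).trans hρK
  have hρ : 0 < ρ := by linarith
  have k4' : KP ≤ ρ / (2 * l) := by rw [le_div_iff₀ (by positivity)]; linarith
  have hlam : 0 ≤ 8 * C * r * A := by positivity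
  have hquart : ρ / (4 * l) ≤ ρ / (2 * l) := by
    apply div_le_div_of_nonneg_left hρ.le (by positivity)
    linarith
  have hEV : EV z (fun U' _ _ => dst U' z < ρ / l) (fun U' _ _ => by
      classical exact if dst U' z < ρ / l then 1 else 0) U.card U col [] =
      Ev z (fun U' _ _ => dst U' z < ρ / l) (fun U' _ _ => I1 (dst U' z < ρ / l)) U col [] := by
    unfold Ev
    congr 1
  rw [hEV]
  -- the stopping rule
  set S : Finset Fc → (Fc → Bool) → List Bool → Prop := fun U' col' _ =>
    dst U' z < ρ / l ∨ sn U' col' z < κ with hS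
  have hhit := Ev_hit (z := z) S (A := fun U' _ => dst U' z < ρ / l)
    (B := fun U' _ => dst U' z < ρ / l) (fun _ _ h => h) U col []
  refine le_trans ?_ hhit
  by_cases h00 : dst U z < ρ / l
  · have h1 : Ev z S (fun U' _ _ => I1 (dst U' z < ρ / l)) U col [] = 1 := by
      rw [Ev_stop (Or.inl h00), I1_pos h00]
    rw [h1, div_le_one (by positivity)]
    -- `g0 ≤ 2 * A` if `s0 ≤ 1`
    have h2 : s0 ≤ 1 := hsn.trans (sn_le_one _ _ _)
    have h3 : s0 ^ ((1 / 3) : ℝ) ≤ 1 := Real.rpow_le_one hs0.le h2 (by norm_num)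
    have h4 : ((1 : ℝ) / 8) ^ ((1 / 4) : ℝ) ≤ 1 :=
      Real.rpow_le_one (by norm_num) (by norm_num) (by norm_num)
    have h5 : 1 ≤ A := Real.one_le_rpow (by linarith) (by norm_num)
    have h6 : g0 ≤ 1 := by
      rw [hg0]
      exact mul_le_one₀ h4 (by positivity) h3
    linarith
  have hOm : Om ρ l z U col := by
    refine ⟨hSt, hz, ?_, hd2⟩
    rw [not_lt] at h00
    linarith
  have hstop : ∀ U' col' hi', dst U' z < ρ / l → S U' col' hi' := fun U' col' hi' h => Or.inl h
  have key := pot (z := z) (stop := S) (G := fun U col _ => -1 * gr ρ U col z)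
    (Ψ := Psi (-1) ρ l (8 * C * r * A) z) (E := g0 / 8) (Om := Om ρ l z)
    (Bad := fun U col => sn U col z < κ) (Om_step hTL hstop) ?_ ?_ ?_ U col [] hOm
  · -- conclusion
    have h1 : Ev z S (fun U col _ => -1 * gr ρ U col z) U col [] =
        - Ev z S (fun U col _ => gr ρ U col z) U col [] := by
      have h2 := Ev_lin (z := z) (stop := S) (G := fun U col _ => gr ρ U col z)
        (G' := fun _ _ _ => 0) (-1) 0 0 U col []
      simp only [mul_zero, add_zero] at h2
      rw [h2]
      ring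
    rw [h1] at key
    obtain ⟨-, c1, c2⟩ := Om_crad hCH hl k2 hOm
    have c3 : 0 < crad U z := lt_of_lt_of_le (by positivity) c1
    have h3 : Psi (-1) ρ l (8 * C * r * A) z U col ≤ - gr ρ U col z + g0 / 8 := by
      unfold Psi
      have c4 : Real.log (16 * l * crad U z / ρ) ≤ Real.log (128 * l) := by
        apply Real.log_le_log (by positivity)
        rw [div_le_iff₀ hρ]
        nlinarith
      have := mul_le_mul_of_nonneg_left c4 hlam
      linarith
    have h4 : g0 ≤ gr ρ U col z := by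
      unfold gr
      rw [hg0]
      have e1 : (1 : ℝ) / 8 ≤ ρ / crad U z := by
        rw [div_le_div_iff₀ (by norm_num) c3]
        linarith
      have e2 := Real.rpow_le_rpow (by norm_num) e1 (show (0 : ℝ) ≤ 1 / 4 by norm_num)
      have e3 := Real.rpow_le_rpow hs0.le hsn (show (0 : ℝ) ≤ 1 / 3 by norm_num)
      exact mul_le_mul e2 e3 (by positivity) (by positivity)
    -- upper bound
    have hup : Ev z S (fun U col _ => gr ρ U col z) U col [] ≤
        Ev z S (fun U' _ _ => A * I1 (dst U' z < ρ / l) + 0 * 0 + A * κ ^ ((1 / 3) : ℝ)) U col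
          [] := by
      apply Ev_le
      intro U' col' hi' hr' hend
      have hO' : Om ρ l z U' col' := Rh_inv (Om_step hTL hstop) hOm hr'
      obtain ⟨d0, d1, -⟩ := Om_crad hCH hl k2 hO'
      have d3 := gr_le hρ hl col' d1
      have d4 : sn U' col' z ^ ((1 / 3) : ℝ) ≤ 1 :=
        Real.rpow_le_one (sn_nonneg _ _ _) (sn_le_one _ _ _) (by norm_num)
      have d5 : 0 ≤ κ ^ ((1 / 3) : ℝ) := by positivity
      have d6 : 0 ≤ A * κ ^ ((1 / 3) : ℝ) := by positivity
      have d7 : A * sn U' col' z ^ ((1 / 3) : ℝ) ≤ A := mul_le_of_le_one_right hA0.le d4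
      by_cases h5 : dst U' z < ρ / l
      · rw [I1_pos h5]; linarith
      · rw [I1_neg h5]
        have h6 : sn U' col' z ≤ κ := by
          by_contra hcon
          rw [not_le] at hcon
          obtain ⟨Lf, p1, p2, -⟩ := hP U' col' z hO'.1 hO'.2.1 (k4'.trans d0) hcon.le
          obtain ⟨-, -, ⟨s, hs, hsz⟩, -⟩ := p2 U' col' [] Rh.refl
          rcases hend with h | h | h
          · rw [hs] at h; exact absurd h (by simp)
          · rcases h with h | h
            · exact h5 h
            · linarith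
          · rw [hs] at h; exact hsz (Option.some.inj h)
        have h7 : sn U' col' z ^ ((1 / 3) : ℝ) ≤ κ ^ ((1 / 3) : ℝ) :=
          Real.rpow_le_rpow (sn_nonneg _ _ _) h6 (by norm_num)
        have h8 := mul_le_mul_of_nonneg_left h7 hA0.le
        linarith
    rw [Ev_lin (G := fun U' _ _ => I1 (dst U' z < ρ / l)) (G' := fun _ _ _ => 0)] at hup
    rw [div_le_iff₀ (by positivity)]
    linarith
  · -- ends
    intro U col hi hO _
    obtain ⟨-, c1, -⟩ := Om_crad hCH hl k2 hO
    have := Psi_ge (σ := -1) hρ hl hlam col (hquart.trans c1)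
    linarith
  · -- bad states
    intro U col hi hO hst hbad
    exact absurd (Or.inr hbad) hst
  · -- good states
    intro U0 col0 hO hgood
    obtain ⟨c0, c1, -⟩ := Om_crad hCH hl k2 hO
    obtain ⟨Lf, p1, p2, p3, p4, -⟩ := hP U0 col0 z hO.1 hO.2.1 (k4'.trans c0) (not_lt.1 hgood)
    obtain ⟨q1, q2⟩ := micro (σ := -1) (stop := S) (Or.inr rfl) hρ hl hC hr hr1 hA c1
      (E := g0 / 8) hrA p2 p3 p4
    exact ⟨Lf, p1, q1, q2⟩

end Pool.Agent.H21.SM
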