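import Pool.Agent.H93.SM.Iface2
import Pool.Agent.H74.Tri.Peel
import Pool.Agent.H21.UC.ArcC
import Pool.Agent.H11.UC.A1
import Pool.Agent.H83.Lo.Inj

set_option autoImplicit false

/-!
# The chain of states: basic facts (step, distance, conformal radius) and expectation lemmas
-/

namespace Pool.Agent.H21.SM

open Pool.Agent.H7.UC Pool.Agent.H74.Tri Pool.Agent.H75.Perc Pool.Agent.H93.SM Metric Set Filter
  Topology

/-! ## The sine -/

lemma snv_bd (U : Finset Fc) (z : Fc) (v w : Vx) : 0 ≤ snv U z v w ∧ snv U z v w ≤ 1 := by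
  unfold snv
  split_ifs with h
  · obtain ⟨-, -, h1, h2, -, -⟩ := h.choose_spec
    refine ⟨by positivity, ?_⟩
    have := norm_sub_le h.choose.2.1 h.choose.2.2
    rw [h1, h2] at this
    linarith
  · exact ⟨le_rfl, zero_le_one⟩

lemma sn_nonneg (U : Finset Fc) (col : Fc → Bool) (z : Fc) : 0 ≤ sn U col z := by
  unfold sn
  split_ifs with h
  · exact (snv_bd _ _ _ _).1
  · exact le_rfl

lemma sn_le_one (U : Finset Fc) (col : Fc → Bool) (z : Fc) : sn U col z ≤ 1 := by
  unfold sn
  split_ifs with h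
  · exact (snv_bd _ _ _ _).2
  · exact zero_le_one

lemma sn_none {U : Finset Fc} {col : Fc → Bool} {z : Fc} (h : tipF U col = none) :
    sn U col z = 0 := by
  unfold sn
  rw [dif_neg]
  rintro ⟨t, p, q, hp, -⟩
  unfold tipF at h
  rw [dif_pos ⟨p, hp⟩] at h
  exact absurd h (by simp)

lemma crad_nonneg (U : Finset Fc) (z : Fc) : 0 ≤ crad U z := by
  unfold crad
  split_ifs with h
  · exact norm_nonneg _
  · exact le_rfl

/-- the scaled Green function -/
noncomputable def gr (ρ : ℝ) (U : Finset Fc) (col : Fc → Bool) (z : Fc) : ℝ :=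
  (ρ / crad U z) ^ ((1 / 4) : ℝ) * sn U col z ^ ((1 / 3) : ℝ)

lemma gr_eq {ρ : ℝ} (hρ : 0 ≤ ρ) (U : Finset Fc) (col : Fc → Bool) (z : Fc) :
    ρ ^ ((1 / 4) : ℝ) * gv U col z = gr ρ U col z := by
  unfold gr gv
  rw [Real.div_rpow hρ (crad_nonneg U z), Real.rpow_neg (crad_nonneg U z)]
  ring

lemma gr_nonneg {ρ : ℝ} (hρ : 0 ≤ ρ) (U : Finset Fc) (col : Fc → Bool) (z : Fc) :
    0 ≤ gr ρ U col z := by
  unfold gr
  have := crad_nonneg U z
  have := sn_nonneg U col z
  positivity

/-! ## One step of the chain -/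

lemma St_congr {U : Finset Fc} {ω ω' : Fc → Bool} (h : ∀ f, f ∉ U → ω f = ω' f) (hS : St U ω) :
    St U ω' := by
  have hc : ∀ v, chg U ω' v → chg U ω v := by
    rintro v ⟨k, h1, h2, h3, h4⟩
    exact ⟨k, h1, h2, h3, by rw [h _ h2, h _ h3]; exact h4⟩
  refine ⟨hS.dom, fun a b c ha hb hc' => hS.two a b c (hc a ha) (hc b hb) (hc c hc'), ?_⟩
  intro f g hf hg hf' hg' hfg
  have := hS.cc f g hf hg hf' hg' (by rw [h f hf, h g hg]; exact hfg)
  refine this.mono ?_
  rintro a ⟨ha, hb⟩
  exact ⟨ha, by rw [← h a ha, ← h f hf]; exact hb⟩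

lemma step_St {U : Finset Fc} {col : Fc → Bool} {z s : Fc} (hS : St U col) (hz : z ∈ U)
    (ht : tipF U col = some s) (hsz : s ≠ z) (c : Bool) :
    St (comp (U \ {s}) z) (Function.update col s c) ∧ z ∈ comp (U \ {s}) z := by
  obtain ⟨p, hp, rfl⟩ := tipF_spec ht
  obtain ⟨h1, h2, h3, h4, h5⟩ := hp
  have hS' : St U (Function.update col (ph p) c) := by
    refine St_congr (fun f hf => ?_) hS
    rw [Function.update_of_ne (fun h => hf (by rw [h]; exact h1))]
  refine ⟨?_, mem_comp_self (Finset.mem_sdiff.2 ⟨hz, by simpa using hsz.symm⟩)⟩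
  cases c
  · refine peel U _ hS' (ph p) h1 (pr p) h3 (adj_hr p) ?_ z hz hsz.symm
    rw [Function.update_self, Function.update_of_ne (fun h => h3 (by rw [h]; exact h1)), h5]
  · refine peel U _ hS' (ph p) h1 (pl p) h2 (adj_hl p) ?_ z hz hsz.symm
    rw [Function.update_self, Function.update_of_ne (fun h => h2 (by rw [h]; exact h1)), h4]

lemma tip_notMem {U : Finset Fc} {col : Fc → Bool} (hU : IsDom U) {p : Pos} (hp : IsTip U col p) :
    pv p.1 ∉ reg U := by
  obtain ⟨h1, h2, -, -, -⟩ := hp
  have e1 : p.2 + 2 + 1 = p.2 := by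
    have : ∀ k : Fin 3, k + 2 + 1 = k := by decide
    exact this _
  have e2 : p.2 + 2 + 2 = p.2 + 1 := by
    have : ∀ k : Fin 3, k + 2 + 2 = k + 1 := by decide
    exact this _
  have hB : isB U (ed p.1 (p.2 + 2)) := by
    rw [Pool.Agent.H21.UC.isB_iff, e1, e2]
    exact Or.inl ⟨h1, h2⟩
  have hfr : pv p.1 ∈ frontier (reg U) := by
    rw [(Pool.Agent.H11.UC.a1 U hU).2]
    simp only [mem_iUnion, exists_prop]
    exact ⟨p.1, p.2 + 2, hB, left_mem_segment _ _ _⟩
  intro h
  exact hfr.2 ((isOpen_interior (s := ⋃ f ∈ U, cell f)).interior_eq.symm ▸ h)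

lemma ball_dst (U : Finset Fc) (z : Fc) : ball (ctr z) (dst U z) ⊆ reg U := by
  intro y hy
  by_contra hn
  have h1 : infDist (ctr z) (reg U)ᶜ ≤ dist (ctr z) y := infDist_le_dist_of_mem hn
  rw [mem_ball, dist_comm] at hy
  exact absurd hy (not_lt.2 h1)

lemma dst_nonneg (U : Finset Fc) (z : Fc) : 0 ≤ dst U z := infDist_nonneg

lemma step_dst (hTL : TL) {U : Finset Fc} {col : Fc → Bool} {z s : Fc} (hS : St U col) (hz : z ∈ U)
    (ht : tipF U col = some s) (hsz : s ≠ z) :
    reg (comp (U \ {s}) z) ⊆ reg U ∧ dst (comp (U \ {s}) z) z ≤ dst U z ∧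
      dst U z - 2 ≤ dst (comp (U \ {s}) z) z := by
  obtain ⟨p, hp, rfl⟩ := tipF_spec ht
  obtain ⟨t1, -, t3⟩ := hTL U z (ph p) hS.dom hz hp.1 hsz
  have hpv := tip_notMem hS.dom hp
  have hne : ((reg U)ᶜ : Set ℂ).Nonempty := ⟨_, hpv⟩
  have hpd : dst U z ≤ dist (ctr z) (pv p.1) := infDist_le_dist_of_mem hpv
  refine ⟨t1, infDist_le_infDist_of_subset (compl_subset_compl.2 t1) hne, ?_⟩
  rcases le_or_gt (dst U z) 2 with h | h
  · have := dst_nonneg (comp (U \ {ph p}) z) z
    linarith
  have hQ : ball (ctr z) (dst U z - 2) ⊆ reg (comp (U \ {ph p}) z) := by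
    apply t3
    · exact (convex_ball _ _).isPreconnected
    · exact (ball_subset_ball (by linarith)).trans (ball_dst U z)
    · rw [Set.disjoint_left]
      intro x hx hx'
      have h1 := Pool.Agent.H21.UC.cell_dist hx' (Pool.Agent.H21.UC.pv_mem p.1 p.2)
      rw [mem_ball, dist_comm] at hx
      have h2 := dist_triangle (ctr z) x (pv p.1)
      rw [dist_eq_norm x] at h2
      linarith
    · exact mem_ball_self (by linarith)
  have hne' : ((reg (comp (U \ {ph p}) z))ᶜ : Set ℂ).Nonempty :=
    hne.mono (compl_subset_compl.2 t1)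
  apply (le_infDist hne').2
  intro y hy
  by_contra hlt
  rw [not_le, dist_comm] at hlt
  exact hy (hQ hlt)

/-- the conformal radius is monotone (Schwarz lemma) -/
lemma crad_mono (hCH : CH) {U U' : Finset Fc} {z : Fc} (hU : IsDom U) (hU' : IsDom U') (hz : z ∈ U)
    (hz' : z ∈ U') (hs : reg U' ⊆ reg U) : crad U' z ≤ crad U z := by
  obtain ⟨⟨φ, hφ, h0⟩, hc, -⟩ := hCH U z hU hz
  obtain ⟨⟨ψ, hψ, h0'⟩, hc', -⟩ := hCH U' z hU' hz'
  rw [(hc φ hφ h0).1, (hc' ψ hψ h0').1]
  have hi : InjOn φ (ball 0 1) := hφ.inj.mono ball_subset_closedBall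
  set g := Function.invFunOn φ (ball 0 1) with hg
  have hgl : ∀ w ∈ ball (0 : ℂ) 1, g (φ w) = w := fun w hw => hi.leftInvOn_invFunOn hw
  have hgd := Pool.Agent.H83.Lo.differentiableOn_inv isOpen_ball hφ.diff hi hgl
  have hmaps : MapsTo ψ (ball 0 1) (φ '' ball 0 1) := by
    intro w hw
    rw [hφ.img]
    apply hs
    rw [← hψ.img]
    exact mem_image_of_mem _ hw
  have hTd : DifferentiableOn ℂ (g ∘ ψ) (ball 0 1) := hgd.comp hψ.diff hmaps
  have hTm : MapsTo (g ∘ ψ) (ball 0 1) (ball 0 1) := by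
    intro w hw
    obtain ⟨x, hx, hxw⟩ := hmaps hw
    show g (ψ w) ∈ _
    rw [← hxw, hgl x hx]
    exact hx
  have h00 : (0 : ℂ) ∈ ball (0 : ℂ) 1 := mem_ball_self one_pos
  have hT0 : (g ∘ ψ) 0 = 0 := by
    show g (ψ 0) = 0
    rw [h0', ← h0, hgl 0 h00]
  have hn : ‖deriv (g ∘ ψ) 0‖ ≤ 1 :=
    Complex.norm_deriv_le_one_of_mapsTo_ball hTd (by
      intro w hw
      rw [hT0]
      exact ball_subset_closedBall (hTm hw)) one_pos
  have heq : ∀ w ∈ ball (0 : ℂ) 1, φ ((g ∘ ψ) w) = ψ w := by
    intro w hw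
    obtain ⟨x, hx, hxw⟩ := hmaps hw
    show φ (g (ψ w)) = ψ w
    rw [← hxw, hgl x hx]
  have hd1 : HasDerivAt (g ∘ ψ) (deriv (g ∘ ψ) 0) 0 :=
    (hTd.differentiableAt (isOpen_ball.mem_nhds h00)).hasDerivAt
  have hd2 : HasDerivAt φ (deriv φ 0) ((g ∘ ψ) 0) := by
    rw [hT0]
    exact (hφ.diff.differentiableAt (isOpen_ball.mem_nhds h00)).hasDerivAt
  have hd3 : HasDerivAt ψ (deriv φ 0 * deriv (g ∘ ψ) 0) 0 := by
    apply (hd2.comp 0 hd1).congr_of_eventuallyEq
    filter_upwards [isOpen_ball.mem_nhds h00] with w hw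
    exact (heq w hw).symm
  rw [hd3.deriv, norm_mul]
  exact mul_le_of_le_one_right (norm_nonneg _) hn

lemma crad_bd (hCH : CH) {U : Finset Fc} {z : Fc} (hU : IsDom U) (hz : z ∈ U) :
    1 / 2 ≤ dst U z ∧ dst U z ≤ crad U z ∧ crad U z ≤ 4 * dst U z := by
  obtain ⟨-, -, -, h1, h2, h3⟩ := hCH U z hU hz
  exact ⟨h1, h2, h3⟩

/-! ## Expectations -/

/-- indicator of a proposition -/
noncomputable def I1 (P : Prop) : ℝ := by classical exact if P then 1 else 0

lemma I1_pos {P : Prop} (h : P) : I1 P = 1 := by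
  unfold I1; rw [if_pos h]

lemma I1_neg {P : Prop} (h : ¬ P) : I1 P = 0 := by
  unfold I1; rw [if_neg h]

lemma I1_eq {P : Prop} [Decidable P] : (if P then (1 : ℝ) else 0) = I1 P := by
  by_cases h : P
  · rw [if_pos h, I1_pos h]
  · rw [if_neg h, I1_neg h]

lemma I1_nonneg (P : Prop) : 0 ≤ I1 P := by
  by_cases h : P
  · rw [I1_pos h]; exact zero_le_one
  · rw [I1_neg h]

lemma I1_le (P : Prop) : I1 P ≤ 1 := by
  by_cases h : P
  · rw [I1_pos h]
  · rw [I1_neg h]; exact zero_le_one

variable {z : Fc}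

/-- the history is irrelevant -/
lemma Ev_hist (Lf : Finset Fc → (Fc → Bool) → Prop) (F : Finset Fc → (Fc → Bool) → ℝ)
    (U : Finset Fc) (col : Fc → Bool) (hi hi' : List Bool) :
    Ev z (fun U col _ => Lf U col) (fun U col _ => F U col) U col hi =
      Ev z (fun U col _ => Lf U col) (fun U col _ => F U col) U col hi' := by
  revert hi'
  refine Ev_ind (z := z) (stop := fun U col _ => Lf U col) (P := fun U col hi => ∀ hi',
    Ev z (fun U col _ => Lf U col) (fun U col _ => F U col) U col hi =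
      Ev z (fun U col _ => Lf U col) (fun U col _ => F U col) U col hi') ?_ ?_ U col hi
  · intro U col hi h hi'
    rcases h with h | h | h
    · rw [Ev_none h, Ev_none h]
    · rw [Ev_stop (stop := fun U col _ => Lf U col) h, Ev_stop (stop := fun U col _ => Lf U col)
        (hi := hi') h]
    · rw [Ev_z h, Ev_z h]
  · intro U col hi s h1 h2 h3 ih1 ih2 hi'
    rw [Ev_step (stop := fun U col _ => Lf U col) h1 h2 h3,
      Ev_step (stop := fun U col _ => Lf U col) (hi := hi') h1 h2 h3, ih1 (true :: hi'),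
      ih2 (false :: hi')]

/-- invariants of the chain -/
lemma Rh_inv {stop : Finset Fc → (Fc → Bool) → List Bool → Prop}
    {Om : Finset Fc → (Fc → Bool) → Prop}
    (hΩ : ∀ U col hi s c, Om U col → ¬ stop U col hi → tipF U col = some s → s ≠ z →
      Om (comp (U \ {s}) z) (Function.update col s c))
    {U0 : Finset Fc} {col0 : Fc → Bool} {hi0 : List Bool} (h0 : Om U0 col0) {U : Finset Fc}
    {col : Fc → Bool} {hi : List Bool} (h : Rh z stop U0 col0 hi0 U col hi) : Om U col := by
  induction h with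
  | refl => exact h0
  | step U col hi s c _ h5 h6 h7 ih => exact hΩ U col hi s c ih h5 h6 h7

/-- expectation of an indicator -/
lemma Ev_I_bd (S : Finset Fc → (Fc → Bool) → List Bool → Prop) (A : Finset Fc → (Fc → Bool) → Prop)
    (U : Finset Fc) (col : Fc → Bool) (hi : List Bool) :
    0 ≤ Ev z S (fun U col _ => I1 (A U col)) U col hi ∧
      Ev z S (fun U col _ => I1 (A U col)) U col hi ≤ 1 := by
  constructor
  · rw [← Ev_const (z := z) (stop := S) 0 U col hi]
    exact Ev_le fun U col hi _ _ => I1_nonneg _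
  · conv_rhs => rw [← Ev_const (z := z) (stop := S) 1 U col hi]
    exact Ev_le fun U col hi _ _ => I1_le _

/-- the probability to hit `B` is the largest -/
lemma Ev_hit (S : Finset Fc → (Fc → Bool) → List Bool → Prop)
    {A B : Finset Fc → (Fc → Bool) → Prop} (hAB : ∀ U col, A U col → B U col)
    (U : Finset Fc) (col : Fc → Bool) (hi : List Bool) :
    Ev z S (fun U col _ => I1 (A U col)) U col hi ≤
      Ev z (fun U col _ => B U col) (fun U col _ => I1 (B U col)) U col hi := by
  refine Ev_ind (z := z) (stop := fun U col _ => B U col) (P := fun U col hi =>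
    Ev z S (fun U col _ => I1 (A U col)) U col hi ≤
      Ev z (fun U col _ => B U col) (fun U col _ => I1 (B U col)) U col hi) ?_ ?_ U col hi
  · intro U col hi h
    by_cases hB : B U col
    · rw [Ev_stop (stop := fun U col _ => B U col) hB, I1_pos hB]
      exact (Ev_I_bd S A U col hi).2
    · have hA : ¬ A U col := fun h => hB (hAB _ _ h)
      have h' : tipF U col = none ∨ tipF U col = some z := by
        rcases h with h | h | h
        · exact Or.inl h
        · exact absurd h hB
        · exact Or.inr h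
      rcases h' with h | h
      · rw [Ev_none h, Ev_none h, I1_neg hA]; exact I1_nonneg _
      · rw [Ev_z h, Ev_z h, I1_neg hA]; exact I1_nonneg _
  · intro U col hi s h1 h2 h3 ih1 ih2
    by_cases hS : S U col hi
    · rw [Ev_stop hS, I1_neg (fun h => h2 (hAB _ _ h))]
      exact (Ev_I_bd _ _ _ _ _).1
    · rw [Ev_step h1 hS h3, Ev_step (stop := fun U col _ => B U col) h1 h2 h3]
      linarith

/-- bound by a constant for a function bounded on an invariant set -/
lemma Ev_ub {stop : Finset Fc → (Fc → Bool) → List Bool → Prop}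
    {G : Finset Fc → (Fc → Bool) → List Bool → ℝ} {Om : Finset Fc → (Fc → Bool) → Prop}
    (hΩ : ∀ U col hi s c, Om U col → ¬ stop U col hi → tipF U col = some s → s ≠ z →
      Om (comp (U \ {s}) z) (Function.update col s c)) {M : ℝ}
    (hG : ∀ U col hi, Om U col → G U col hi ≤ M) {U : Finset Fc} {col : Fc → Bool}
    {hi : List Bool} (h : Om U col) : Ev z stop G U col hi ≤ M := by
  rw [← Ev_const (z := z) (stop := stop) M U col hi]
  exact Ev_le fun U' col' hi' hr _ => hG _ _ _ (Rh_inv hΩ h hr)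

/-! ## The potential argument -/

/-- what is needed of a micro-step that starts at `(U0, col0)` and ends at `Lf` -/
def GP (z : Fc) (stop : Finset Fc → (Fc → Bool) → List Bool → Prop)
    (G : Finset Fc → (Fc → Bool) → List Bool → ℝ) (Ψ : Finset Fc → (Fc → Bool) → ℝ) (E : ℝ)
    (U0 : Finset Fc) (col0 : Fc → Bool) (Lf : Finset Fc → (Fc → Bool) → Prop) : Prop :=
  ∀ U col hi, Rh z (fun U col _ => Lf U col) U0 col0 [] U col hi →
    (∃ s, tipF U col = some s ∧ s ≠ z) ∧ ∀ hs, stop U col hs →
    ∀ U' col' hi', Rh z (fun U col _ => Lf U col) U0 col0 [] U' col' hi' → Lf U' col' →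
    G U col hs ≤ Ψ U' col' + E

/-- reachability is transitive -/
lemma Rh_trans {stop : Finset Fc → (Fc → Bool) → List Bool → Prop} {U0 : Finset Fc}
    {col0 : Fc → Bool} {hi0 : List Bool} {U : Finset Fc} {col : Fc → Bool} {hi : List Bool}
    (h : Rh z stop U0 col0 hi0 U col hi) {U' : Finset Fc} {col' : Fc → Bool} {hi' : List Bool}
    (h' : Rh z stop U col hi U' col' hi') : Rh z stop U0 col0 hi0 U' col' hi' := by
  induction h' with
  | refl => exact h
  | step U col hi s c _ h5 h6 h7 ih => exact Rh.step _ _ _ _ _ ih h5 h6 h7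

theorem pot {stop : Finset Fc → (Fc → Bool) → List Bool → Prop}
    {G : Finset Fc → (Fc → Bool) → List Bool → ℝ} {Ψ : Finset Fc → (Fc → Bool) → ℝ} {E : ℝ}
    {Om Bad : Finset Fc → (Fc → Bool) → Prop}
    (hΩ : ∀ U col hi s c, Om U col → ¬ stop U col hi → tipF U col = some s → s ≠ z →
      Om (comp (U \ {s}) z) (Function.update col s c))
    (hend : ∀ U col hi, Om U col → (tipF U col = none ∨ stop U col hi ∨ tipF U col = some z) →
      G U col hi ≤ Ψ U col + E)
    (hbad : ∀ U col hi, Om U col → ¬ stop U col hi → Bad U col →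
      Ev z stop G U col hi ≤ Ψ U col + E)
    (hgood : ∀ U0 col0, Om U0 col0 → ¬ Bad U0 col0 → ∃ Lf : Finset Fc → (Fc → Bool) → Prop,
      ¬ Lf U0 col0 ∧ GP z stop G Ψ E U0 col0 Lf ∧
      Ev z (fun U col _ => Lf U col) (fun U col _ => Ψ U col) U0 col0 [] ≤ Ψ U0 col0) :
    ∀ U col hi, Om U col → Ev z stop G U col hi ≤ Ψ U col + E := by
  have key : ∀ U col hi, Om U col → (Ev z stop G U col hi ≤ Ψ U col + E ∧
      ∀ (U0 : Finset Fc) (col0 : Fc → Bool) (Lf : Finset Fc → (Fc → Bool) → Prop),
      GP z stop G Ψ E U0 col0 Lf → ∀ hi', Rh z (fun U col _ => Lf U col) U0 col0 [] U col hi' →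
      ¬ Lf U col → Ev z stop G U col hi ≤
        Ev z (fun U col _ => Lf U col) (fun U col _ => Ψ U col) U col hi' + E) := by
    refine Ev_ind (z := z) (stop := stop) ?_ ?_
    · intro U col hi h hO
      have hV : Ev z stop G U col hi = G U col hi := by
        rcases h with h | h | h
        · exact Ev_none h
        · exact Ev_stop h
        · exact Ev_z h
      refine ⟨by rw [hV]; exact hend U col hi hO h, ?_⟩
      intro U0 col0 Lf hGP hi' hr _
      obtain ⟨⟨s, hs, hsz⟩, h2⟩ := hGP U col hi' hr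
      have hst : stop U col hi := by
        rcases h with h | h | h
        · rw [hs] at h; exact absurd h (by simp)
        · exact h
        · rw [hs] at h; exact absurd (Option.some.inj h) hsz
      have h3 := h2 hi hst
      rw [hV]
      have h4 : G U col hi - E ≤ Ev z (fun U col _ => Lf U col) (fun U col _ => Ψ U col) U col hi' := by
        rw [← Ev_const (z := z) (stop := fun U col _ => Lf U col) (G U col hi - E) U col hi']
        apply Ev_le
        intro U' col' hi'' hr' hend'
        have hr2 := Rh_trans hr hr'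
        obtain ⟨⟨s', hs', hsz'⟩, -⟩ := hGP U' col' hi'' hr2
        have hLf : Lf U' col' := by
          rcases hend' with h | h | h
          · rw [hs'] at h; exact absurd h (by simp)
          · exact h
          · rw [hs'] at h; exact absurd (Option.some.inj h) hsz'
        linarith [h3 U' col' hi'' hr2 hLf]
      linarith
    · intro U col hi s h1 h2 h3 ih1 ih2 hO
      have hO1 := hΩ U col hi s true hO h2 h1 h3
      have hO2 := hΩ U col hi s false hO h2 h1 h3
      obtain ⟨a1, b1⟩ := ih1 hO1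
      obtain ⟨a2, b2⟩ := ih2 hO2
      have second : ∀ (U0 : Finset Fc) (col0 : Fc → Bool) (Lf : Finset Fc → (Fc → Bool) → Prop),
          GP z stop G Ψ E U0 col0 Lf →
          ∀ hi', Rh z (fun U col _ => Lf U col) U0 col0 [] U col hi' →
          ¬ Lf U col → Ev z stop G U col hi ≤
            Ev z (fun U col _ => Lf U col) (fun U col _ => Ψ U col) U col hi' + E := by
        intro U0 col0 Lf hGP hi' hr hL
        rw [Ev_step h1 h2 h3, Ev_step (stop := fun U col _ => Lf U col) h1 hL h3]
        have c1 : ∀ c : Bool, (∀ (U0 : Finset Fc) (col0 : Fc → Bool)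
            (Lf : Finset Fc → (Fc → Bool) → Prop), GP z stop G Ψ E U0 col0 Lf →
            ∀ hi', Rh z (fun U col _ => Lf U col) U0 col0 [] (comp (U \ {s}) z)
              (Function.update col s c) hi' → ¬ Lf (comp (U \ {s}) z) (Function.update col s c) →
            Ev z stop G (comp (U \ {s}) z) (Function.update col s c) (c :: hi) ≤
              Ev z (fun U col _ => Lf U col) (fun U col _ => Ψ U col) (comp (U \ {s}) z)
              (Function.update col s c) hi' + E) →
            Ev z stop G (comp (U \ {s}) z) (Function.update col s c) (c :: hi) ≤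
              Ψ (comp (U \ {s}) z) (Function.update col s c) + E →
            Ev z stop G (comp (U \ {s}) z) (Function.update col s c) (c :: hi) ≤
              Ev z (fun U col _ => Lf U col) (fun U col _ => Ψ U col) (comp (U \ {s}) z)
              (Function.update col s c) (c :: hi') + E := by
          intro c b a
          have hr' : Rh z (fun U col _ => Lf U col) U0 col0 [] (comp (U \ {s}) z)
              (Function.update col s c) (c :: hi') := Rh.step _ _ _ _ _ hr hL h1 h3
          by_cases hL' : Lf (comp (U \ {s}) z) (Function.update col s c)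
          · rw [Ev_stop (stop := fun U col _ => Lf U col) hL']
            exact a
          · exact b U0 col0 Lf hGP _ hr' hL'
        have d1 := c1 true b1 a1
        have d2 := c1 false b2 a2
        linarith
      refine ⟨?_, second⟩
      by_cases hB : Bad U col
      · exact hbad U col hi hO h2 hB
      · obtain ⟨Lf, hL, hGP, hE⟩ := hgood U col hO hB
        have := second U col Lf hGP [] Rh.refl hL
        linarith
  exact fun U col hi hO => (key U col hi hO).1

end Pool.Agent.H21.SM
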