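import Pool.Agent.H93.SM.Iface
import Pool.Agent.H21.UC.ArcC
import Pool.Agent.H11.UC.A1

set_option autoImplicit false

/-!
# CYC: four marks are in cyclic order on the circle
-/

namespace Pool.Agent.H21.SM

open Pool.Agent.H7.UC Metric Set Filter Topology
open Pool.Agent.H21.UC Pool.Agent.H93.SM

lemma ind_union {α : Type*} {s t : Set α} (h : Disjoint s t) (a : α) :
    ind (s ∪ t) a = ind s a + ind t a := by
  by_cases h1 : a ∈ s
  · have h2 : a ∉ t := fun h2 => Set.disjoint_left.1 h h1 h2
    rw [(ind_val s a).1 h1, (ind_val t a).2 h2, (ind_val _ a).1 (Or.inl h1), add_zero]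
  · by_cases h2 : a ∈ t
    · rw [(ind_val s a).2 h1, (ind_val t a).1 h2, (ind_val _ a).1 (Or.inr h2), zero_add]
    · rw [(ind_val s a).2 h1, (ind_val t a).2 h2, (ind_val _ a).2 (by
        rintro (h3 | h3)
        · exact h1 h3
        · exact h2 h3), zero_add]

lemma z2_self (x : ZMod 2) : x + x = 0 := by
  revert x; decide

/-- forget the mark `u 1` of four marks -/
noncomputable def drop1 {U : Finset Fc} (M : Marks U 4) : Marks U 3 where
  u := ![M.u 0, M.u 2, M.u 3]
  C := ![M.C 0 ∪ M.C 1, M.C 2, M.C 3]
  out := by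
    intro j
    fin_cases j
    · obtain ⟨k, h1, h2, h3, h4⟩ := M.out 0
      exact ⟨k, h1, h2, h3, Finset.mem_union_left _ h4⟩
    · exact M.out 2
    · exact M.out 3
  mem := by
    intro e
    rw [M.mem]
    constructor
    · rintro ⟨j, hj⟩
      fin_cases j
      · exact ⟨0, Finset.mem_union_left _ hj⟩
      · exact ⟨0, Finset.mem_union_right _ hj⟩
      · exact ⟨1, hj⟩
      · exact ⟨2, hj⟩
    · rintro ⟨j, hj⟩
      fin_cases j
      · rcases Finset.mem_union.1 hj with h | h
        · exact ⟨0, h⟩
        · exact ⟨1, h⟩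
      · exact ⟨2, hj⟩
      · exact ⟨3, hj⟩
  disj := by
    have d := M.disj
    intro j l hjl
    fin_cases j <;> fin_cases l
    · exact absurd rfl hjl
    · exact Finset.disjoint_union_left.2 ⟨d 0 2 (by decide), d 1 2 (by decide)⟩
    · exact Finset.disjoint_union_left.2 ⟨d 0 3 (by decide), d 1 3 (by decide)⟩
    · exact Finset.disjoint_union_right.2 ⟨d 2 0 (by decide), d 2 1 (by decide)⟩
    · exact absurd rfl hjl
    · exact d 2 3 (by decide)
    · exact Finset.disjoint_union_right.2 ⟨d 3 0 (by decide), d 3 1 (by decide)⟩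
    · exact d 3 2 (by decide)
    · exact absurd rfl hjl
  dvC := by
    intro j v
    fin_cases j
    · have h0 := M.dvC 0 v
      have h1 := M.dvC 1 v
      have hd : Disjoint (↑(M.C 0) : Set Ed) ↑(M.C 1) := by
        rw [Finset.disjoint_coe]; exact M.disj 0 1 (by decide)
      have e : dv (ind (↑(M.C 0 ∪ M.C 1) : Set Ed)) v =
          dv (ind (↑(M.C 0) : Set Ed)) v + dv (ind (↑(M.C 1) : Set Ed)) v := by
        rw [Finset.coe_union]
        simp only [dv, ind_union hd]
        ring
      have s := z2_self (ind {M.u 1} v)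
      change dv (ind (↑(M.C 0 ∪ M.C 1) : Set Ed)) v = ind {M.u 0} v + ind {M.u 2} v
      rw [e, h0, h1]
      change ind {M.u 0} v + ind {M.u 1} v + (ind {M.u 1} v + ind {M.u 2} v) = _
      linear_combination s
    · exact M.dvC 2 v
    · exact M.dvC 3 v
  inj := by
    intro j l h
    fin_cases j <;> fin_cases l
    · rfl
    · exact absurd (M.inj h) (by decide)
    · exact absurd (M.inj h) (by decide)
    · exact absurd (M.inj h) (by decide)
    · rfl
    · exact absurd (M.inj h) (by decide)
    · exact absurd (M.inj h) (by decide)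
    · exact absurd (M.inj h) (by decide)
    · rfl

theorem cyc : CYC := by
  intro U M φ p hU hφ hp
  have hA := (Pool.Agent.H11.UC.a1 U hU).2
  have hpi : Function.Injective p := by
    intro j l h
    apply M.inj
    apply pv_inj
    rw [← (hp j).2, ← (hp l).2, h]
  have hm : ∀ j, ‖(![p 0, p 2, p 3] : Fin 3 → ℂ) j‖ = 1 ∧
      φ ((![p 0, p 2, p 3] : Fin 3 → ℂ) j) = pv ((drop1 M).u j) := by
    intro j
    fin_cases j
    · exact hp 0
    · exact hp 2
    · exact hp 3
  have hinj : Function.Injective (![p 0, p 2, p 3] : Fin 3 → ℂ) := by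
    intro j l h
    fin_cases j <;> fin_cases l
    · rfl
    · exact absurd (hpi h) (by decide)
    · exact absurd (hpi h) (by decide)
    · exact absurd (hpi h) (by decide)
    · rfl
    · exact absurd (hpi h) (by decide)
    · exact absurd (hpi h) (by decide)
    · exact absurd (hpi h) (by decide)
    · rfl
  have h1 := mem_arc (M := drop1 M) hφ hm hinj hA 0 (q := p 1) (hp 1).1.le
    (by
      intro j h
      fin_cases j
      · exact absurd (hpi h) (by decide)
      · exact absurd (hpi h) (by decide)
      · exact absurd (hpi h) (by decide))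
    (by
      rw [(hp 1).2, mem_AA]
      obtain ⟨k, -, -, -, h4⟩ := M.out 1
      exact ⟨_, Finset.mem_union_right _ h4, pv_mem_sg⟩)
  exact ⟨h1.2.1, h1.2.2⟩

end Pool.Agent.H21.SM
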