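import Pool.Agent.H21.SM.Chain

set_option autoImplicit false

/-!
# The potential of the scaled Green function along a micro-step
-/

namespace Pool.Agent.H21.SM

open Pool.Agent.H7.UC Pool.Agent.H74.Tri Pool.Agent.H75.Perc Pool.Agent.H93.SM Metric Set Filter
  Topology

lemma cbrt_sub {a b d : ℝ} (ha : 0 ≤ a) (hb : 0 ≤ b) (h : |a - b| ≤ d) :
    a ^ ((1 / 3) : ℝ) ≤ b ^ ((1 / 3) : ℝ) + d ^ ((1 / 3) : ℝ) := by
  have hd : 0 ≤ d := (abs_nonneg _).trans h
  have h1 : a ≤ b + d := by linarith [(abs_le.1 h).2]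
  calc a ^ ((1 / 3) : ℝ) ≤ (b + d) ^ ((1 / 3) : ℝ) := Real.rpow_le_rpow ha h1 (by norm_num)
    _ ≤ _ := Real.rpow_add_le_add_rpow hb hd (by norm_num) (by norm_num)

/-- the choice of `r` -/
lemma exists_r {A C L r0 η : ℝ} (hη : 0 < η) (hr0 : 0 < r0) :
    ∃ r : ℝ, 0 < r ∧ r ≤ r0 ∧ r ≤ 1 / 2 ∧ A * ((2 * C * r) ^ ((1 / 3) : ℝ) + r ^ 2) ≤ η ∧
      8 * C * r * A * L ≤ η := by
  have h1 : Tendsto (fun r : ℝ => A * ((2 * C * r) ^ ((1 / 3) : ℝ) + r ^ 2)) (𝓝 0) (𝓝 0) := by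
    have hc : Continuous (fun r : ℝ => A * ((2 * C * r) ^ ((1 / 3) : ℝ) + r ^ 2)) := by
      apply Continuous.mul continuous_const
      apply Continuous.add
      · exact (continuous_const.mul continuous_id).rpow_const fun x => Or.inr (by norm_num)
      · exact continuous_pow 2
    have := hc.tendsto 0
    simpa [Real.zero_rpow] using this
  have h2 : Tendsto (fun r : ℝ => 8 * C * r * A * L) (𝓝 0) (𝓝 0) := by
    have hc : Continuous (fun r : ℝ => 8 * C * r * A * L) := by fun_prop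
    simpa using hc.tendsto 0
  have e1 := (h1.eventually (gt_mem_nhds hη)).filter_mono (nhdsWithin_le_nhds (s := Ioi 0))
  have e2 := (h2.eventually (gt_mem_nhds hη)).filter_mono (nhdsWithin_le_nhds (s := Ioi 0))
  have e3 : ∀ᶠ r : ℝ in 𝓝[>] 0, r < min r0 (1 / 2) :=
    (gt_mem_nhds (lt_min hr0 (by norm_num))).filter_mono nhdsWithin_le_nhds
  have e4 : ∀ᶠ r : ℝ in 𝓝[>] 0, 0 < r := eventually_mem_nhdsWithin
  obtain ⟨r, h1, h2, h3, h4⟩ := (e1.and (e2.and (e3.and e4))).exists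
  exact ⟨r, h4, (h3.trans_le (min_le_left _ _)).le, (h3.trans_le (min_le_right _ _)).le, h1.le,
    h2.le⟩

/-- range of the conformal radius -/
lemma quart_le {ρ l x : ℝ} (hρ : 0 < ρ) (hl : 0 < l) (hx : ρ / (2 * l) ≤ x) :
    (ρ / x) ^ ((1 / 4) : ℝ) ≤ (2 * l) ^ ((1 / 4) : ℝ) := by
  have hx0 : 0 < x := lt_of_lt_of_le (by positivity) hx
  apply Real.rpow_le_rpow (by positivity) _ (by norm_num)
  rw [div_le_iff₀ hx0]
  rw [div_le_iff₀ (by positivity)] at hx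
  linarith

lemma gr_le {ρ l : ℝ} (hρ : 0 < ρ) (hl : 0 < l) {U : Finset Fc} {z : Fc} (col : Fc → Bool)
    (hx : ρ / (2 * l) ≤ crad U z) :
    gr ρ U col z ≤ (2 * l) ^ ((1 / 4) : ℝ) * sn U col z ^ ((1 / 3) : ℝ) := by
  unfold gr
  exact mul_le_mul_of_nonneg_right (quart_le hρ hl hx)
    (Real.rpow_nonneg (sn_nonneg _ _ _) _)

lemma crad_lS {U0 U : Finset Fc} {z : Fc} (h0 : 0 < crad U0 z) (h : 0 < crad U z) :
    crad U z = crad U0 z * Real.exp (-lS U0 U z) := by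
  unfold lS
  rw [Real.exp_neg, Real.exp_log (by positivity)]
  field_simp

/-- two states of a micro-step are close -/
lemma gr_close {ρ r C A : ℝ} (hρ : 0 < ρ) (hr1 : r ≤ 1 / 2) (hr : 0 < r) {U0 U U' : Finset Fc}
    {z : Fc} {col0 col col' : Fc → Bool} (h0 : 0 < crad U0 z) (hA : (ρ / crad U0 z) ^ ((1 / 4) : ℝ) ≤ A)
    (h : 0 < crad U z) (h' : 0 < crad U' z) (hl : lS U0 U z ≤ 2 * r ^ 2)
    (hl' : 0 ≤ lS U0 U' z) (hs : |sn U col z - sn U0 col0 z| ≤ C * r)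
    (hs' : |sn U' col' z - sn U0 col0 z| ≤ C * r) :
    gr ρ U col z ≤ gr ρ U' col' z + A * ((2 * C * r) ^ ((1 / 3) : ℝ) + r ^ 2) := by
  set B := (ρ / crad U0 z) ^ ((1 / 4) : ℝ) with hB
  have hB0 : 0 ≤ B := by positivity
  have hq : ∀ V : Finset Fc, 0 < crad V z → (ρ / crad V z) ^ ((1 / 4) : ℝ) =
      B * Real.exp (lS U0 V z / 4) := by
    intro V hV
    rw [crad_lS h0 hV, hB]
    have e1 : ρ / (crad U0 z * Real.exp (-lS U0 V z)) = ρ / crad U0 z * Real.exp (lS U0 V z) := by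
      rw [Real.exp_neg]; field_simp
    rw [e1, Real.mul_rpow (by positivity) (Real.exp_pos _).le, ← Real.exp_mul]
    congr 2
    ring
  have hr2 : r ^ 2 ≤ 1 / 4 := by nlinarith
  have e1 : Real.exp (lS U0 U z / 4) ≤ 1 + r ^ 2 := by
    have h1 : Real.exp (lS U0 U z / 4) ≤ Real.exp (r ^ 2 / 2) := Real.exp_le_exp.2 (by linarith)
    have h2 : Real.exp (r ^ 2 / 2) ≤ 1 / (1 - r ^ 2 / 2) :=
      Real.exp_bound_div_one_sub_of_interval (by positivity) (by linarith)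
    have h3 : 1 / (1 - r ^ 2 / 2) ≤ 1 + r ^ 2 := by
      rw [div_le_iff₀ (by linarith)]
      nlinarith [sq_nonneg r]
    linarith
  have e2 : 1 ≤ Real.exp (lS U0 U' z / 4) := Real.one_le_exp (by linarith)
  have hss : |sn U col z - sn U' col' z| ≤ 2 * C * r := by
    have := abs_sub_le (sn U col z) (sn U0 col0 z) (sn U' col' z)
    rw [abs_sub_comm (sn U0 col0 z)] at this
    linarith
  have e3 := cbrt_sub (sn_nonneg U col z) (sn_nonneg U' col' z) hss
  have e4 : sn U col z ^ ((1 / 3) : ℝ) ≤ 1 :=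
    Real.rpow_le_one (sn_nonneg _ _ _) (sn_le_one _ _ _) (by norm_num)
  have e5 : 0 ≤ sn U col z ^ ((1 / 3) : ℝ) := Real.rpow_nonneg (sn_nonneg _ _ _) _
  have e6 : 0 ≤ sn U' col' z ^ ((1 / 3) : ℝ) := Real.rpow_nonneg (sn_nonneg _ _ _) _
  have hCr : 0 ≤ 2 * C * r := (abs_nonneg _).trans hss
  have e7 : 0 ≤ (2 * C * r) ^ ((1 / 3) : ℝ) := Real.rpow_nonneg hCr _
  unfold gr
  rw [hq U h, hq U' h']
  calc B * Real.exp (lS U0 U z / 4) * sn U col z ^ ((1 / 3) : ℝ)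
      ≤ B * (1 + r ^ 2) * sn U col z ^ ((1 / 3) : ℝ) := by gcongr
    _ = B * sn U col z ^ ((1 / 3) : ℝ) + B * r ^ 2 * sn U col z ^ ((1 / 3) : ℝ) := by ring
    _ ≤ B * (sn U' col' z ^ ((1 / 3) : ℝ) + (2 * C * r) ^ ((1 / 3) : ℝ)) + B * r ^ 2 * 1 := by
        gcongr
    _ = B * sn U' col' z ^ ((1 / 3) : ℝ) + B * ((2 * C * r) ^ ((1 / 3) : ℝ) + r ^ 2) := by ring
    _ ≤ B * Real.exp (lS U0 U' z / 4) * sn U' col' z ^ ((1 / 3) : ℝ) +
        A * ((2 * C * r) ^ ((1 / 3) : ℝ) + r ^ 2) := by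
        apply add_le_add
        · have := mul_le_mul_of_nonneg_left e2 hB0
          rw [mul_one] at this
          exact mul_le_mul_of_nonneg_right this e6
        · exact mul_le_mul_of_nonneg_right hA (by positivity)

/-- the potential -/
noncomputable def Psi (σ ρ l lam : ℝ) (z : Fc) (U : Finset Fc) (col : Fc → Bool) : ℝ :=
  σ * gr ρ U col z + lam * Real.log (16 * l * crad U z / ρ)

lemma Psi_ge {σ ρ l lam : ℝ} (hρ : 0 < ρ) (hl : 0 < l) (hlam : 0 ≤ lam) {z : Fc} {U : Finset Fc}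
    (col : Fc → Bool) (hx : ρ / (4 * l) ≤ crad U z) : σ * gr ρ U col z ≤ Psi σ ρ l lam z U col := by
  unfold Psi
  have h1 : 1 ≤ 16 * l * crad U z / ρ := by
    rw [div_le_iff₀ (by positivity)] at hx
    rw [le_div_iff₀ hρ]
    nlinarith
  have := mul_nonneg hlam (Real.log_nonneg h1)
  linarith

/-- **Micro-step**: the potential decreases in mean, and the values during the step are controlled
by the values at the end. -/
theorem micro {σ ρ l C r A : ℝ} (hσ : σ = 1 ∨ σ = -1) (hρ : 0 < ρ) (hl : 0 < l) (hC : 0 < C)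
    (hr : 0 < r) (hr1 : r ≤ 1 / 2) (hAdef : A = (2 * l) ^ ((1 / 4) : ℝ)) {z : Fc} {U0 : Finset Fc}
    {col0 : Fc → Bool} {stop : Finset Fc → (Fc → Bool) → List Bool → Prop}
    (hx : ρ / (2 * l) ≤ crad U0 z) {Lf : Finset Fc → (Fc → Bool) → Prop} {E : ℝ}
    (hE : A * ((2 * C * r) ^ ((1 / 3) : ℝ) + r ^ 2) ≤ E)
    (h1 : ∀ U col hi, Rh z (fun U col _ => Lf U col) U0 col0 [] U col hi →
      St U col ∧ z ∈ U ∧ (∃ s, tipF U col = some s ∧ s ≠ z) ∧ 0 < crad U z ∧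
      0 ≤ lS U0 U z ∧ lS U0 U z ≤ 2 * r ^ 2 ∧ |sn U col z - sn U0 col0 z| ≤ C * r)
    (h2 : r ^ 2 / 8 ≤ Ev z (fun U col _ => Lf U col) (fun U _ _ => lS U0 U z) U0 col0 [])
    (h3 : |Ev z (fun U col _ => Lf U col) (fun U col _ => gv U col z) U0 col0 [] - gv U0 col0 z| ≤
      C * r ^ 3 * crad U0 z ^ (-(1 / 4) : ℝ)) :
    GP z stop (fun U col _ => σ * gr ρ U col z) (Psi σ ρ l (8 * C * r * A) z) E U0 col0 Lf ∧
    Ev z (fun U col _ => Lf U col) (fun U col _ => Psi σ ρ l (8 * C * r * A) z U col) U0 col0 [] ≤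
      Psi σ ρ l (8 * C * r * A) z U0 col0 := by
  have hx0 : 0 < crad U0 z := lt_of_lt_of_le (by positivity) hx
  have hA : (ρ / crad U0 z) ^ ((1 / 4) : ℝ) ≤ A := hAdef ▸ quart_le hρ hl hx
  have hA0 : 0 ≤ A := le_trans (by positivity) hA
  have hlam : 0 ≤ 8 * C * r * A := by positivity
  constructor
  · intro U col hi hr'
    obtain ⟨-, -, a3, a4, a5, a6, a7⟩ := h1 U col hi hr'
    refine ⟨a3, ?_⟩
    intro hs _ U' col' hi' hr2 _
    obtain ⟨-, -, -, b4, b5, b6, b7⟩ := h1 U' col' hi' hr2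
    have c1 : σ * gr ρ U col z ≤ σ * gr ρ U' col' z + E := by
      have d1 := gr_close hρ hr1 hr hx0 hA a4 b4 a6 b5 a7 b7
      have d2 := gr_close hρ hr1 hr hx0 hA b4 a4 b6 a5 b7 a7
      rcases hσ with rfl | rfl <;> linarith
    have c2 : ρ / (4 * l) ≤ crad U' z := by
      rw [crad_lS hx0 b4]
      have e1 : 1 / 2 ≤ Real.exp (-lS U0 U' z) := by
        have := Real.add_one_le_exp (-lS U0 U' z)
        nlinarith
      have e2 : crad U0 z * (1 / 2) ≤ crad U0 z * Real.exp (-lS U0 U' z) :=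
        mul_le_mul_of_nonneg_left e1 hx0.le
      have e3 : ρ / (4 * l) = ρ / (2 * l) * (1 / 2) := by field_simp; norm_num
      rw [e3]
      exact le_trans (mul_le_mul_of_nonneg_right hx (by norm_num)) e2
    have := Psi_ge (σ := σ) hρ hl hlam col' c2
    linarith
  · set c0 := 8 * C * r * A * Real.log (16 * l * crad U0 z / ρ) with hc0
    have e1 : Ev z (fun U col _ => Lf U col) (fun U col _ => Psi σ ρ l (8 * C * r * A) z U col)
        U0 col0 [] = Ev z (fun U col _ => Lf U col)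
        (fun U col _ => σ * ρ ^ ((1 / 4) : ℝ) * gv U col z + -(8 * C * r * A) * lS U0 U z + c0)
        U0 col0 [] := by
      apply Ev_congr
      intro U col hi hr' _
      obtain ⟨-, -, -, a4, -, -, -⟩ := h1 U col hi hr'
      unfold Psi
      rw [← gr_eq hρ.le, hc0]
      have e2 : Real.log (16 * l * crad U z / ρ) = Real.log (16 * l * crad U0 z / ρ) -
          lS U0 U z := by
        unfold lS
        rw [← Real.log_div (by positivity) (by positivity)]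
        congr 1
        field_simp
      rw [e2]
      ring
    rw [e1, Ev_lin (G := fun U col _ => gv U col z) (G' := fun U _ _ => lS U0 U z)]
    set g1 := Ev z (fun U col _ => Lf U col) (fun U col _ => gv U col z) U0 col0 [] with hg1
    set g2 := Ev z (fun U col _ => Lf U col) (fun U _ _ => lS U0 U z) U0 col0 [] with hg2
    unfold Psi
    rw [← gr_eq hρ.le]
    have hp : 0 ≤ ρ ^ ((1 / 4) : ℝ) := by positivity
    have e4 : ρ ^ ((1 / 4) : ℝ) * |g1 - gv U0 col0 z| ≤ C * r ^ 3 * A := by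
      calc ρ ^ ((1 / 4) : ℝ) * |g1 - gv U0 col0 z|
          ≤ ρ ^ ((1 / 4) : ℝ) * (C * r ^ 3 * crad U0 z ^ (-(1 / 4) : ℝ)) :=
            mul_le_mul_of_nonneg_left h3 hp
        _ = C * r ^ 3 * (ρ / crad U0 z) ^ ((1 / 4) : ℝ) := by
            rw [Real.div_rpow hρ.le hx0.le, Real.rpow_neg hx0.le]
            ring
        _ ≤ C * r ^ 3 * A := mul_le_mul_of_nonneg_left hA (by positivity)
    have e5 : σ * ρ ^ ((1 / 4) : ℝ) * g1 - σ * (ρ ^ ((1 / 4) : ℝ) * gv U0 col0 z) ≤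
        C * r ^ 3 * A := by
      have d1 := abs_le.1 (show |ρ ^ ((1 / 4) : ℝ) * (g1 - gv U0 col0 z)| ≤ C * r ^ 3 * A by
        rw [abs_mul, abs_of_nonneg hp]; exact e4)
      rcases hσ with rfl | rfl <;> nlinarith [d1.1, d1.2]
    have e6 : C * r ^ 3 * A ≤ 8 * C * r * A * g2 := by
      calc C * r ^ 3 * A = 8 * C * r * A * (r ^ 2 / 8) := by ring
        _ ≤ _ := mul_le_mul_of_nonneg_left h2 hlam
    linarith

end Pool.Agent.H21.SM
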