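import Pool.Agent.H21.SM.Micro

set_option autoImplicit false

/-!
# OS: one-step supermartingale for all stopping times
-/

namespace Pool.Agent.H21.SM

open Pool.Agent.H7.UC Pool.Agent.H74.Tri Pool.Agent.H75.Perc Pool.Agent.H93.SM Metric Set Filter
  Topology

/-- range of the chain -/
def Om (ρ l : ℝ) (z : Fc) (U : Finset Fc) (col : Fc → Bool) : Prop :=
  St U col ∧ z ∈ U ∧ ρ / l - 2 ≤ dst U z ∧ dst U z ≤ 2 * ρ

lemma Om_step (hTL : TL) {ρ l : ℝ} {z : Fc}
    {stop : Finset Fc → (Fc → Bool) → List Bool → Prop}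
    (hstop : ∀ U' col' hi', dst U' z < ρ / l → stop U' col' hi') :
    ∀ U col hi s c, Om ρ l z U col → ¬ stop U col hi → tipF U col = some s → s ≠ z →
      Om ρ l z (comp (U \ {s}) z) (Function.update col s c) := by
  rintro U col hi s c ⟨h1, h2, h3, h4⟩ hs ht hsz
  obtain ⟨a1, a2⟩ := step_St h1 h2 ht hsz c
  obtain ⟨-, b2, b3⟩ := step_dst hTL h1 h2 ht hsz
  have h5 : ρ / l ≤ dst U z := by
    by_contra hlt
    exact hs (hstop _ _ _ (not_le.1 hlt))
  exact ⟨a1, a2, by linarith, by linarith⟩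

lemma Om_crad (hCH : CH) {ρ l : ℝ} (hl : 0 < l) (hρ4 : 4 * l ≤ ρ) {z : Fc} {U : Finset Fc}
    {col : Fc → Bool} (h : Om ρ l z U col) :
    ρ / (2 * l) ≤ dst U z ∧ ρ / (2 * l) ≤ crad U z ∧ crad U z ≤ 8 * ρ := by
  obtain ⟨h1, h2, h3, h4⟩ := h
  obtain ⟨-, h5, h6⟩ := crad_bd hCH h1.dom h2
  have e : ρ / (2 * l) ≤ ρ / l - 2 := by
    have e1 : ρ / (2 * l) = ρ / l / 2 := by field_simp
    have e2 : 4 ≤ ρ / l := by rw [le_div_iff₀ hl]; exact hρ4
    rw [e1]; linarith
  exact ⟨by linarith, by linarith, by linarith⟩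

/-- bad states contribute little -/
lemma bad_aux (hTL : TL) (hCH : CH) {ρ l : ℝ} (hl : 0 < l) (hρ4 : 4 * l ≤ ρ) {z : Fc}
    {stop : Finset Fc → (Fc → Bool) → List Bool → Prop}
    (hstop : ∀ U' col' hi', dst U' z < ρ / l → stop U' col' hi') {κ1 : ℝ} (hκ : 0 < κ1) (d8 : ℝ) :
    ∀ U col hi, Om ρ l z U col →
      Ev z stop (fun U col _ => gr ρ U col z) U col hi ≤
      (2 * l) ^ ((1 / 4) : ℝ) * κ1 ^ ((1 / 3) : ℝ) + (2 * l) ^ ((1 / 4) : ℝ) *
        Ev z (fun U col _ => dst U z < d8 ∨ κ1 ≤ sn U col z)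
          (fun U col _ => I1 (dst U z < d8 ∨ κ1 ≤ sn U col z)) U col hi := by
  have hρ : 0 < ρ := by linarith
  have hA0 : 0 ≤ (2 * l) ^ ((1 / 4) : ℝ) := by positivity
  have hgA : ∀ U col, Om ρ l z U col → gr ρ U col z ≤
      (2 * l) ^ ((1 / 4) : ℝ) * sn U col z ^ ((1 / 3) : ℝ) := fun U col h =>
    gr_le hρ hl col (Om_crad hCH hl hρ4 h).2.1
  have hgA1 : ∀ U col, Om ρ l z U col → gr ρ U col z ≤ (2 * l) ^ ((1 / 4) : ℝ) := by
    intro U col h
    have h1 := hgA U col h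
    have h2 : sn U col z ^ ((1 / 3) : ℝ) ≤ 1 :=
      Real.rpow_le_one (sn_nonneg _ _ _) (sn_le_one _ _ _) (by norm_num)
    nlinarith
  have hκ0 : 0 ≤ κ1 ^ ((1 / 3) : ℝ) := by positivity
  refine Ev_ind (z := z) (stop := stop) ?_ ?_
  · intro U col hi h hO
    have hV : Ev z stop (fun U col _ => gr ρ U col z) U col hi = gr ρ U col z := by
      rcases h with h | h | h
      · exact Ev_none h
      · exact Ev_stop h
      · exact Ev_z h
    rw [hV]
    by_cases hB : dst U z < d8 ∨ κ1 ≤ sn U col z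
    · rw [Ev_stop (stop := fun U col _ => dst U z < d8 ∨ κ1 ≤ sn U col z) hB, I1_pos hB]
      have := hgA1 U col hO
      have := mul_nonneg hA0 hκ0
      linarith
    · push Not at hB
      have h1 := hgA U col hO
      have h2 : sn U col z ^ ((1 / 3) : ℝ) ≤ κ1 ^ ((1 / 3) : ℝ) :=
        Real.rpow_le_rpow (sn_nonneg _ _ _) hB.2.le (by norm_num)
      have h3 := mul_le_mul_of_nonneg_left h2 hA0
      have h4 := (Ev_I_bd (z := z) (fun U col _ => dst U z < d8 ∨ κ1 ≤ sn U col z)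
        (fun U col => dst U z < d8 ∨ κ1 ≤ sn U col z) U col hi).1
      have h5 := mul_nonneg hA0 h4
      linarith
  · intro U col hi s h1 h2 h3 ih1 ih2 hO
    have i1 := ih1 (Om_step hTL hstop U col hi s true hO h2 h1 h3)
    have i2 := ih2 (Om_step hTL hstop U col hi s false hO h2 h1 h3)
    by_cases hB : dst U z < d8 ∨ κ1 ≤ sn U col z
    · rw [Ev_stop (stop := fun U col _ => dst U z < d8 ∨ κ1 ≤ sn U col z) hB, I1_pos hB]
      have h4 : Ev z stop (fun U col _ => gr ρ U col z) U col hi ≤ (2 * l) ^ ((1 / 4) : ℝ) :=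
        Ev_ub (Om := Om ρ l z) (Om_step hTL hstop) (fun U col _ h => hgA1 U col h) hO
      have := mul_nonneg hA0 hκ0
      linarith
    · rw [Ev_step h1 h2 h3,
        Ev_step (stop := fun U col _ => dst U z < d8 ∨ κ1 ≤ sn U col z) h1 hB h3]
      linarith

/-- BD in terms of `Ev` and `I1` -/
lemma BD_Ev {κ1 e κ0 K : ℝ}
    (h : ∀ (U : Finset Fc) (col : Fc → Bool) (z : Fc), St U col → z ∈ U → K ≤ dst U z →
      sn U col z ≤ κ0 →
      EV z (fun U' col' _ => dst U' z < dst U z / 8 ∨ κ1 ≤ sn U' col' z) (fun U' col' _ => by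
        classical exact if dst U' z < dst U z / 8 ∨ κ1 ≤ sn U' col' z then 1 else 0) U.card U col
        [] ≤ e) (U : Finset Fc) (col : Fc → Bool) (z : Fc) (hi : List Bool) (h1 : St U col)
    (h2 : z ∈ U) (h3 : K ≤ dst U z) (h4 : sn U col z ≤ κ0) :
    Ev z (fun U' col' _ => dst U' z < dst U z / 8 ∨ κ1 ≤ sn U' col' z)
      (fun U' col' _ => I1 (dst U' z < dst U z / 8 ∨ κ1 ≤ sn U' col' z)) U col hi ≤ e := by
  have h5 := h U col z h1 h2 h3 h4
  rw [Ev_hist (fun U' col' => dst U' z < dst U z / 8 ∨ κ1 ≤ sn U' col' z)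
    (fun U' col' => I1 (dst U' z < dst U z / 8 ∨ κ1 ≤ sn U' col' z)) U col hi []]
  refine le_trans (le_of_eq ?_) h5
  unfold Ev
  congr 1
  funext U' col' _
  rw [I1_eq]

theorem os (hPS : PS) (hBD : BD) (hCH : CH) (hTL : TL) : OS := by
  intro l hl1 e he
  have hl : 0 < l := by linarith
  set A := (2 * l) ^ ((1 / 4) : ℝ) with hA
  have hA0 : 0 < A := by positivity
  -- constants
  obtain ⟨κ1, hκ1, hκe⟩ : ∃ κ1 : ℝ, 0 < κ1 ∧ A * κ1 ^ ((1 / 3) : ℝ) ≤ e / 4 := by
    refine ⟨(e / (4 * A)) ^ (3 : ℝ), by positivity, ?_⟩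
    rw [← Real.rpow_mul (by positivity)]
    norm_num
    rw [mul_div_assoc', div_le_iff₀ (by positivity)]
    apply le_of_eq
    ring
  obtain ⟨κ0, hκ0, KB, hB⟩ := hBD κ1 hκ1 (e / (4 * A)) (by positivity)
  obtain ⟨C, r0, hC, hr0, hP⟩ := hPS κ0 hκ0
  obtain ⟨r, hr, hrr0, hr1, hrA, hrL⟩ := exists_r (A := A) (C := C) (L := Real.log (128 * l))
    (η := e / 4) (by positivity) hr0
  obtain ⟨KP, hP⟩ := hP r hr hrr0
  refine ⟨max (max 1 (4 * l)) (max (2 * l * KB) (2 * l * KP)),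
    lt_of_lt_of_le one_pos ((le_max_left _ _).trans (le_max_left _ _)), ?_⟩
  intro ρ hρK U col z hSt hz hd1 hd2 stop hstop
  have k1 : 1 ≤ ρ := ((le_max_left _ _).trans (le_max_left _ _)).trans hρK
  have k2 : 4 * l ≤ ρ := ((le_max_right _ _).trans (le_max_left _ _)).trans hρK
  have k3 : 2 * l * KB ≤ ρ := ((le_max_left _ _).trans (le_max_right _ _)).trans hρK
  have k4 : 2 * l * KP ≤ ρ := ((le_max_right _ _).trans (le_max_right _ _)).trans hρK
  have hρ : 0 < ρ := by linarith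
  have k3' : KB ≤ ρ / (2 * l) := by rw [le_div_iff₀ (by positivity)]; linarith
  have k4' : KP ≤ ρ / (2 * l) := by rw [le_div_iff₀ (by positivity)]; linarith
  have hlam : 0 ≤ 8 * C * r * A := by positivity
  have hquart : ρ / (4 * l) ≤ ρ / (2 * l) := by
    apply div_le_div_of_nonneg_left hρ.le (by positivity)
    linarith
  have hpow : 0 < ρ ^ ((1 / 4) : ℝ) := by positivity
  by_cases h0 : stop U col []
  · have h1 : EV z stop (fun U' col' _ => gv U' col' z) U.card U col [] = gv U col z :=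
      Ev_stop (z := z) (G := fun U' col' _ => gv U' col' z) h0
    rw [h1]
    have : 0 ≤ e * ρ ^ (-(1 / 4) : ℝ) := by positivity
    linarith
  have hOm : Om ρ l z U col := by
    refine ⟨hSt, hz, ?_, hd2⟩
    by_contra hcon
    rw [not_le] at hcon
    exact h0 (hstop _ _ _ (by linarith))
  have key := pot (z := z) (stop := stop) (G := fun U col _ => 1 * gr ρ U col z)
    (Ψ := Psi 1 ρ l (8 * C * r * A) z) (E := e / 2) (Om := Om ρ l z)
    (Bad := fun U col => sn U col z < κ0) (Om_step hTL hstop) ?_ ?_ ?_ U col [] hOm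
  · -- conclusion
    have h1 : Ev z stop (fun U col _ => 1 * gr ρ U col z) U col [] =
        ρ ^ ((1 / 4) : ℝ) * Ev z stop (fun U col _ => gv U col z) U col [] := by
      have h2 := Ev_lin (z := z) (stop := stop) (G := fun U col _ => gv U col z)
        (G' := fun _ _ _ => 0) (ρ ^ ((1 / 4) : ℝ)) 0 0 U col []
      simp only [mul_zero, add_zero, zero_mul] at h2
      rw [← h2]
      congr 1
      funext U' col' _
      rw [one_mul, gr_eq hρ.le]
    rw [h1] at key
    have h3 : Psi 1 ρ l (8 * C * r * A) z U col ≤ ρ ^ ((1 / 4) : ℝ) * gv U col z + e / 4 := by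
      unfold Psi
      rw [gr_eq hρ.le, one_mul]
      obtain ⟨-, c1, c2⟩ := Om_crad hCH hl k2 hOm
      have c3 : 0 < crad U z := lt_of_lt_of_le (by positivity) c1
      have c4 : Real.log (16 * l * crad U z / ρ) ≤ Real.log (128 * l) := by
        apply Real.log_le_log (by positivity)
        rw [div_le_iff₀ hρ]
        nlinarith
      have := mul_le_mul_of_nonneg_left c4 hlam
      linarith
    have h4 : ρ ^ ((1 / 4) : ℝ) * Ev z stop (fun U col _ => gv U col z) U col [] ≤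
        ρ ^ ((1 / 4) : ℝ) * gv U col z + e := by linarith
    have h5 : EV z stop (fun U' col' _ => gv U' col' z) U.card U col [] =
        Ev z stop (fun U col _ => gv U col z) U col [] := rfl
    rw [h5, Real.rpow_neg hρ.le]
    rw [← sub_nonneg]
    have h6 : 0 ≤ (ρ ^ ((1 / 4) : ℝ))⁻¹ * (ρ ^ ((1 / 4) : ℝ) * gv U col z + e -
        ρ ^ ((1 / 4) : ℝ) * Ev z stop (fun U col _ => gv U col z) U col []) :=
      mul_nonneg (by positivity) (by linarith)
    have h7 : (ρ ^ ((1 / 4) : ℝ))⁻¹ * (ρ ^ ((1 / 4) : ℝ) * gv U col z + e -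
        ρ ^ ((1 / 4) : ℝ) * Ev z stop (fun U col _ => gv U col z) U col []) =
        gv U col z + e * (ρ ^ ((1 / 4) : ℝ))⁻¹ -
          Ev z stop (fun U col _ => gv U col z) U col [] := by
      field_simp
    rwa [h7] at h6
  · -- ends
    intro U col hi hO _
    obtain ⟨-, c1, -⟩ := Om_crad hCH hl k2 hO
    have := Psi_ge (σ := 1) hρ hl hlam col (hquart.trans c1)
    linarith
  · -- bad states
    intro U col hi hO _ hbad
    obtain ⟨c0, c1, -⟩ := Om_crad hCH hl k2 hO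
    have h1 := bad_aux hTL hCH hl k2 hstop hκ1 (dst U z / 8) U col hi hO
    have h2 := BD_Ev hB U col z hi hO.1 hO.2.1 (k3'.trans c0) hbad.le
    have h3 := mul_le_mul_of_nonneg_left h2 hA0.le
    have h4 : A * (e / (4 * A)) = e / 4 := by field_simp
    have h5 := Psi_ge (σ := 1) hρ hl hlam col (hquart.trans c1)
    have h6 := gr_nonneg hρ.le U col z
    simp only [one_mul] at h5 ⊢
    linarith
  · -- good states
    intro U0 col0 hO hgood
    obtain ⟨c0, c1, -⟩ := Om_crad hCH hl k2 hO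
    obtain ⟨Lf, p1, p2, p3, p4, -⟩ := hP U0 col0 z hO.1 hO.2.1 (k4'.trans c0) (not_lt.1 hgood)
    obtain ⟨q1, q2⟩ := micro (σ := 1) (stop := stop) (Or.inl rfl) hρ hl hC hr hr1 hA c1
      (E := e / 2) (by linarith) p2 p3 p4
    exact ⟨Lf, p1, q1, q2⟩

end Pool.Agent.H21.SM
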