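import Pool.Agent.H21.SM.Os

set_option autoImplicit false

/-!
# OS': the probability to come near `z`
-/

namespace Pool.Agent.H21.SM

open Pool.Agent.H7.UC Pool.Agent.H74.Tri Pool.Agent.H75.Perc Pool.Agent.H93.SM Metric Set Filter
  Topology

lemma FF_bd {s : ℝ} (h0 : 0 ≤ s) (h1 : s ≤ 1) : 0 ≤ FF s ∧ FF s ≤ 16 * s ^ ((1 / 3) : ℝ) := by
  unfold FF
  have h2 : 0 ≤ s ^ ((1 / 3) : ℝ) := Real.rpow_nonneg h0 _
  have h3 : s ^ 2 ≤ s ^ ((1 / 3) : ℝ) := by
    rcases eq_or_lt_of_le h0 with h | h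
    · rw [← h]
      have : (0 : ℝ) ^ ((1 / 3) : ℝ) = 0 := Real.zero_rpow (by norm_num)
      rw [this]; norm_num
    · have := Real.rpow_le_rpow_of_exponent_ge h h1 (show ((1 / 3) : ℝ) ≤ 2 by norm_num)
      rwa [Real.rpow_two] at this
  constructor
  · linarith
  · nlinarith [sq_nonneg s]

lemma lS_add {U0 U1 U2 : Finset Fc} {z : Fc} (h0 : 0 < crad U0 z) (h1 : 0 < crad U1 z)
    (h2 : 0 < crad U2 z) : lS U0 U2 z = lS U0 U1 z + lS U1 U2 z := by
  unfold lS
  rw [← Real.log_mul (by positivity) (by positivity)]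
  congr 1
  field_simp

lemma exp_two_fifth : Real.exp (2 / 5) ≤ 49 / 32 := by
  have h1 : Real.exp (1 / 10) ≤ 1 / (1 - 1 / 10) :=
    Real.exp_bound_div_one_sub_of_interval (by norm_num) (by norm_num)
  have h2 : Real.exp (2 / 5) = Real.exp (1 / 10) ^ 4 := by
    rw [← Real.exp_nat_mul]; norm_num
  rw [h2]
  calc Real.exp (1 / 10) ^ 4 ≤ (1 / (1 - 1 / 10)) ^ 4 := by
        gcongr
    _ ≤ 49 / 32 := by norm_num

/-- **Lifetime**: the probability that the distance drops by the factor `49`. -/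
theorem life (hPS : PS) (hBD : BD) (hCH : CH) (hTL : TL) : ∀ e > (0 : ℝ), ∃ K : ℝ, 0 < K ∧
    ∀ t : ℝ, K ≤ t → ∀ (U : Finset Fc) (col : Fc → Bool) (z : Fc) (hi : List Bool), St U col →
    z ∈ U → 49 * t ≤ dst U z →
    Ev z (fun U' _ _ => dst U' z < t) (fun U' _ _ => I1 (dst U' z < t)) U col hi ≤
      20 * sn U col z ^ ((1 / 3) : ℝ) + e := by
  intro e he
  obtain ⟨κ0, hκ0, KB, hB⟩ := hBD 1 one_pos e he
  obtain ⟨C, r0, hC, hr0, hP⟩ := hPS κ0 hκ0
  set r := min r0 (1 / 2) with hrdef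
  have hr : 0 < r := lt_min hr0 (by norm_num)
  have hr1 : r ≤ 1 / 2 := min_le_right _ _
  obtain ⟨KP, hP⟩ := hP r hr (min_le_left _ _)
  refine ⟨max 3 (max (KB + 2) (KP + 2)), lt_of_lt_of_le (by norm_num) (le_max_left _ _), ?_⟩
  intro t ht U1 col1 z hi1 hSt hz hd
  have k1 : 3 ≤ t := (le_max_left _ _).trans ht
  have k2 : KB + 2 ≤ t := ((le_max_left _ _).trans (le_max_right _ _)).trans ht
  have k3 : KP + 2 ≤ t := ((le_max_right _ _).trans (le_max_right _ _)).trans ht
  have hcr : ∀ U : Finset Fc, ∀ col, St U col → z ∈ U → t - 2 ≤ dst U z → 0 < crad U z := by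
    intro U col h1 h2 h3
    have := (crad_bd hCH h1.dom h2).2.1
    linarith
  have hc1 : 0 < crad U1 z := hcr U1 col1 hSt hz (by linarith)
  have hc1' : 49 * t ≤ crad U1 z := hd.trans (crad_bd hCH hSt.dom hz).2.1
  set Om2 : Finset Fc → (Fc → Bool) → Prop := fun U col => St U col ∧ z ∈ U ∧ t - 2 ≤ dst U z ∧
    crad U z ≤ crad U1 z with hOm2
  have hstep : ∀ U col (hi : List Bool) s c, Om2 U col → ¬ (dst U z < t) → tipF U col = some s →
      s ≠ z → Om2 (comp (U \ {s}) z) (Function.update col s c) := by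
    rintro U col _ s c ⟨h1, h2, h3, h4⟩ hs hts hsz
    obtain ⟨a1, a2⟩ := step_St h1 h2 hts hsz c
    obtain ⟨b1, b2, b3⟩ := step_dst hTL h1 h2 hts hsz
    refine ⟨a1, a2, by linarith [not_lt.1 hs], ?_⟩
    exact (crad_mono hCH h1.dom a1.dom h2 a2 b1).trans h4
  have hO1 : Om2 U1 col1 := ⟨hSt, hz, by linarith, le_rfl⟩
  have hlS0 : ∀ U col, Om2 U col → 0 ≤ lS U1 U z := by
    rintro U col ⟨h1, h2, h3, h4⟩
    unfold lS
    apply Real.log_nonneg
    rw [le_div_iff₀ (hcr U col h1 h2 h3)]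
    linarith
  have hlow : ∀ U col, St U col → z ∈ U → t - 2 ≤ dst U z → dst U z < t →
      9 / 10 ≤ lS U1 U z := by
    intro U col h1 h2 h3 h4
    have h5 := hcr U col h1 h2 h3
    have h6 := (crad_bd hCH h1.dom h2).2.2
    have h7 : 49 / 4 ≤ crad U1 z / crad U z := by
      rw [le_div_iff₀ h5]
      linarith
    have h8 : Real.log (49 / 4) ≤ lS U1 U z := Real.log_le_log (by norm_num) h7
    have h9 := Real.one_sub_inv_le_log_of_pos (show (0 : ℝ) < 49 / 4 by norm_num)
    norm_num at h9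
    linarith
  have hFF : ∀ U col, 0 ≤ FF (sn U col z) := fun U col =>
    (FF_bd (sn_nonneg _ _ _) (sn_le_one _ _ _)).1
  have key := pot (z := z) (stop := fun U _ _ => dst U z < t)
    (G := fun U _ _ => 4 / 5 * I1 (dst U z < t))
    (Ψ := fun U col => FF (sn U col z) + 2 * lS U1 U z) (E := 4 / 5 * e) (Om := Om2)
    (Bad := fun U col => sn U col z < κ0) hstep ?_ ?_ ?_ U1 col1 hi1 hO1
  · have h1 : Ev z (fun U' _ _ => dst U' z < t) (fun U' _ _ => 4 / 5 * I1 (dst U' z < t))
        U1 col1 hi1 =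
        4 / 5 * Ev z (fun U' _ _ => dst U' z < t) (fun U' _ _ => I1 (dst U' z < t)) U1 col1 hi1 := by
      have h2 := Ev_lin (z := z) (stop := fun U' _ _ => dst U' z < t)
        (G := fun U' _ _ => I1 (dst U' z < t)) (G' := fun _ _ _ => 0) (4 / 5) 0 0 U1 col1 hi1
      simpa using h2
    rw [h1] at key
    have h3 : lS U1 U1 z = 0 := by
      unfold lS
      rw [div_self hc1.ne', Real.log_one]
    have h4 := (FF_bd (sn_nonneg U1 col1 z) (sn_le_one U1 col1 z)).2
    simp only [h3] at key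
    linarith
  · intro U col hi hO _
    have h1 := hlS0 U col hO
    have h2 := hFF U col
    by_cases h : dst U z < t
    · have h3 := hlow U col hO.1 hO.2.1 hO.2.2.1 h
      simp only [I1_pos h]
      linarith
    · simp only [I1_neg h]
      linarith
  · intro U col hi hO hst hbad
    have h1 := hlS0 U col hO
    have h2 := hFF U col
    have h3 : Ev z (fun U' _ _ => dst U' z < t) (fun U' _ _ => 4 / 5 * I1 (dst U' z < t))
        U col hi =
        4 / 5 * Ev z (fun U' _ _ => dst U' z < t) (fun U' _ _ => I1 (dst U' z < t)) U col hi := by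
      have h2 := Ev_lin (z := z) (stop := fun U' _ _ => dst U' z < t)
        (G := fun U' _ _ => I1 (dst U' z < t)) (G' := fun _ _ _ => 0) (4 / 5) 0 0 U col hi
      simpa using h2
    rw [h3]
    have h4 := (Ev_I_bd (z := z) (fun U' _ _ => dst U' z < t) (fun U' _ => dst U' z < t) U col hi).2
    rcases le_or_gt (2 / 5) (lS U1 U z) with h5 | h5
    · linarith
    · have h6 := hcr U col hO.1 hO.2.1 hO.2.2.1
      have h7 : crad U1 z ≤ 49 / 32 * crad U z := by
        have h8 := crad_lS hc1 h6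
        have h9 : Real.exp (lS U1 U z) ≤ 49 / 32 :=
          (Real.exp_le_exp.2 h5.le).trans exp_two_fifth
        have h10 : crad U1 z = Real.exp (lS U1 U z) * crad U z := by
          rw [h8, Real.exp_neg]; field_simp
        rw [h10]
        exact mul_le_mul_of_nonneg_right h9 h6.le
      have h8 := (crad_bd hCH hO.1.dom hO.2.1).2.2
      have h9 : t ≤ dst U z / 8 := by linarith
      have h10 := Ev_hit (z := z) (fun U' _ _ => dst U' z < t) (A := fun U' _ => dst U' z < t)
        (B := fun U' col' => dst U' z < dst U z / 8 ∨ 1 ≤ sn U' col' z)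
        (fun U' col' h => Or.inl (h.trans_le h9)) U col hi
      have h11 := BD_Ev hB U col z hi hO.1 hO.2.1 (by linarith [hO.2.2.1]) hbad.le
      linarith
  · intro U0 col0 hO hgood
    obtain ⟨Lf, p1, p2, p3, -, p5⟩ := hP U0 col0 z hO.1 hO.2.1 (by linarith [hO.2.2.1])
      (not_lt.1 hgood)
    have hc0 : 0 < crad U0 z := hcr U0 col0 hO.1 hO.2.1 hO.2.2.1
    refine ⟨Lf, p1, ?_, ?_⟩
    · intro U col hi hr'
      obtain ⟨a1, a2, a3, a4, a5, a6, -⟩ := p2 U col hi hr'
      refine ⟨a3, ?_⟩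
      intro hs hst U' col' hi' hr2 _
      obtain ⟨-, -, -, b4, b5, -, -⟩ := p2 U' col' hi' hr2
      have e1 := lS_add (U0 := U1) (U1 := U0) (U2 := U) hc1 hc0 a4
      have e2 := lS_add (U0 := U1) (U1 := U0) (U2 := U') hc1 hc0 b4
      have e3 : 9 / 10 ≤ lS U1 U z := by
        have h6 := (crad_bd hCH a1.dom a2).2.2
        have h7 : 49 / 4 ≤ crad U1 z / crad U z := by
          rw [le_div_iff₀ a4]
          linarith
        have h8 : Real.log (49 / 4) ≤ lS U1 U z := Real.log_le_log (by norm_num) h7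
        have h9 := Real.one_sub_inv_le_log_of_pos (show (0 : ℝ) < 49 / 4 by norm_num)
        norm_num at h9
        linarith
      have e4 : r ^ 2 ≤ 1 / 4 := by nlinarith
      have e5 := hFF U' col'
      have e6 := I1_le (dst U z < t)
      linarith
    · have e1 : Ev z (fun U col _ => Lf U col) (fun U col _ => FF (sn U col z) + 2 * lS U1 U z)
          U0 col0 [] = Ev z (fun U col _ => Lf U col)
          (fun U col _ => 1 * FF (sn U col z) + 2 * lS U0 U z + 2 * lS U1 U0 z) U0 col0 [] := by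
        apply Ev_congr
        intro U col hi hr' _
        obtain ⟨-, -, -, a4, -, -, -⟩ := p2 U col hi hr'
        rw [lS_add (U0 := U1) (U1 := U0) (U2 := U) hc1 hc0 a4]
        ring
      rw [e1, Ev_lin (G := fun U col _ => FF (sn U col z)) (G' := fun U _ _ => lS U0 U z)]
      linarith

theorem os' (hPS : PS) (hBD : BD) (hCH : CH) (hTL : TL) : OS' := by
  refine ⟨20 * 200 ^ ((1 / 4) : ℝ), ?_⟩
  intro l hl e he
  have hl0 : 0 < l := by linarith
  have hlq : 0 < l ^ (-(1 / 4) : ℝ) := Real.rpow_pos_of_pos hl0 _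
  set C0 : ℝ := 20 * 200 ^ ((1 / 4) : ℝ) with hC0
  have hC0p : 0 < C0 := by positivity
  obtain ⟨K1, hK1, hOS⟩ := os hPS hBD hCH hTL (l / 50) (by linarith) (e / 2) (by positivity)
  obtain ⟨K2, hK2, hL⟩ := life hPS hBD hCH hTL (C0 * l ^ (-(1 / 4) : ℝ) * (e / 2)) (by positivity)
  refine ⟨max K1 (max (l * K2) (2 * l)), lt_of_lt_of_le hK1 (le_max_left _ _), ?_⟩
  intro ρ hρK U col z hSt hz hd1 hd2
  have k1 : K1 ≤ ρ := (le_max_left _ _).trans hρK
  have k2 : l * K2 ≤ ρ := ((le_max_left _ _).trans (le_max_right _ _)).trans hρK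
  have k3 : 2 * l ≤ ρ := ((le_max_right _ _).trans (le_max_right _ _)).trans hρK
  have hρ : 0 < ρ := by linarith
  set t := ρ / l with ht
  have ht0 : 0 < t := by positivity
  have ht1 : K2 ≤ t := by rw [ht, le_div_iff₀ hl0]; linarith
  have ht2 : 2 ≤ t := by rw [ht, le_div_iff₀ hl0]; linarith
  have hρt : ρ = t * l := by rw [ht]; field_simp
  have ht50 : ρ / (l / 50) = 50 * t := by rw [ht]; field_simp
  set e2 := C0 * l ^ (-(1 / 4) : ℝ) * (e / 2) with he2
  set D := 20 * (200 * t) ^ ((1 / 4) : ℝ) with hD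
  have hD0 : 0 < D := by positivity
  -- the comparison with the first time below `50 t`
  have hcomp : ∀ U col hi, Om ρ (l / 50) z U col →
      Ev z (fun U' _ _ => dst U' z < t) (fun U' _ _ => I1 (dst U' z < t)) U col hi ≤
      Ev z (fun U' _ _ => dst U' z < ρ / (l / 50)) (fun U' col' _ => D * gv U' col' z + 0 * 0 + e2)
        U col hi := by
    have he20 : 0 < e2 := by positivity
    have hgv : ∀ (U : Finset Fc) (col : Fc → Bool), 0 ≤ gv U col z := by
      intro U col
      unfold gv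
      have := crad_nonneg U z
      have := sn_nonneg U col z
      positivity
    refine Ev_ind (z := z) (stop := fun U' _ _ => dst U' z < ρ / (l / 50)) ?_ ?_
    · intro U col hi h hO
      have hV : Ev z (fun U' _ _ => dst U' z < ρ / (l / 50))
          (fun U' col' _ => D * gv U' col' z + 0 * 0 + e2) U col hi =
          D * gv U col z + 0 * 0 + e2 := by
        rcases h with h | h | h
        · exact Ev_none h
        · exact Ev_stop (stop := fun U' _ _ => dst U' z < ρ / (l / 50)) h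
        · exact Ev_z h
      rw [hV]
      obtain ⟨o1, o2, o3, o4⟩ := hO
      by_cases hs : dst U z < ρ / (l / 50)
      · have h1 := hL t ht1 U col z hi o1 o2 (by rw [ht50] at o3; linarith)
        have h2 : 20 * sn U col z ^ ((1 / 3) : ℝ) ≤ D * gv U col z := by
          obtain ⟨-, c1, c2⟩ := crad_bd hCH o1.dom o2
          have c3 : 0 < crad U z := by rw [ht50] at o3; linarith
          have c4 : crad U z ≤ 200 * t := by rw [ht50] at hs; linarith
          have c5 : 1 ≤ (200 * t) ^ ((1 / 4) : ℝ) * crad U z ^ (-(1 / 4) : ℝ) := by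
            rw [Real.rpow_neg c3.le, ← div_eq_mul_inv, le_div_iff₀ (by positivity), one_mul]
            exact Real.rpow_le_rpow c3.le c4 (by norm_num)
          have c6 : 0 ≤ 20 * sn U col z ^ ((1 / 3) : ℝ) := by
            have := sn_nonneg U col z
            positivity
          unfold gv
          rw [hD]
          nlinarith [mul_le_mul_of_nonneg_left c5 c6]
        linarith
      · have h3 : ¬ dst U z < t := by
          rw [ht50] at hs
          push Not at hs ⊢
          linarith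
        have h4 : Ev z (fun U' _ _ => dst U' z < t) (fun U' _ _ => I1 (dst U' z < t)) U col hi =
            0 := by
          rcases h with h | h | h
          · rw [Ev_none h, I1_neg h3]
          · exact absurd h hs
          · rw [Ev_z h, I1_neg h3]
        rw [h4]
        have := hgv U col
        positivity
    · intro U col hi s h1 h2 h3 ih1 ih2 hO
      have hOs := Om_step (ρ := ρ) (l := l / 50) (z := z) hTL
        (stop := fun U' _ _ => dst U' z < ρ / (l / 50)) (fun _ _ _ h => h)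
      have i1 := ih1 (hOs U col hi s true hO h2 h1 h3)
      have i2 := ih2 (hOs U col hi s false hO h2 h1 h3)
      have h4 : ¬ dst U z < t := by
        rw [ht50] at h2
        push Not at h2 ⊢
        linarith
      rw [Ev_step (stop := fun U' _ _ => dst U' z < t) h1 h4 h3,
        Ev_step (stop := fun U' _ _ => dst U' z < ρ / (l / 50)) h1 h2 h3]
      linarith
  have hO : Om ρ (l / 50) z U col := by
    refine ⟨hSt, hz, ?_, hd2⟩
    rw [ht50]
    have : 100 * t ≤ ρ := by rw [hρt]; nlinarith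
    linarith
  have h1 := hcomp U col [] hO
  rw [Ev_lin (G := fun U' col' _ => gv U' col' z) (G' := fun _ _ _ => 0)] at h1
  have h2 := hOS ρ k1 U col z hSt hz hd1 hd2 (fun U' _ _ => dst U' z < ρ / (l / 50))
    (fun _ _ _ h => h)
  have h3 : EV z (fun U' _ _ => dst U' z < ρ / l) (fun U' _ _ => by
      classical exact if dst U' z < ρ / l then 1 else 0) U.card U col [] =
      Ev z (fun U' _ _ => dst U' z < t) (fun U' _ _ => I1 (dst U' z < t)) U col [] := by
    unfold Ev
    congr 1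
  rw [h3]
  have h4 : D = C0 * l ^ (-(1 / 4) : ℝ) * ρ ^ ((1 / 4) : ℝ) := by
    rw [hD, hC0, ht, Real.mul_rpow (by norm_num) (by positivity), Real.div_rpow hρ.le hl0.le,
      Real.rpow_neg hl0.le]
    ring
  have h5 : ρ ^ ((1 / 4) : ℝ) * ρ ^ (-(1 / 4) : ℝ) = 1 := by
    rw [← Real.rpow_add hρ]; norm_num
  have h6 : D * Ev z (fun U' _ _ => dst U' z < ρ / (l / 50)) (fun U' col' _ => gv U' col' z) U col
      [] ≤ D * (gv U col z + e / 2 * ρ ^ (-(1 / 4) : ℝ)) := mul_le_mul_of_nonneg_left h2 hD0.le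
  have h7 : D * (gv U col z + e / 2 * ρ ^ (-(1 / 4) : ℝ)) =
      C0 * l ^ (-(1 / 4) : ℝ) * (ρ ^ ((1 / 4) : ℝ) * gv U col z + e / 2) := by
    rw [h4]
    linear_combination (C0 * l ^ (-(1 / 4) : ℝ) * (e / 2)) * h5
  have h8 : C0 * l ^ (-(1 / 4) : ℝ) * (ρ ^ ((1 / 4) : ℝ) * gv U col z + e) =
      C0 * l ^ (-(1 / 4) : ℝ) * (ρ ^ ((1 / 4) : ℝ) * gv U col z + e / 2) + e2 := by
    rw [he2]; ring
  rw [h8]
  linarith

end Pool.Agent.H21.SM
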